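import Mathlib

namespace Pool.Agent.EXR

/-- Module DER. Every derivation of `End V` is inner.

Proof. If `V = 0` it is trivial. Otherwise choose `v₀` and a linear form `f₀` with `f₀ v₀ = 1`. For
`w : V` let `[w] = w ⊗ f₀ : x ↦ f₀ x • w` (`LinearMap.toSpanSingleton`/`LinearMap.smulRight f₀ w`),
and `u w = D [w] v₀`, linear in `w`. For `a : End V`, `a * [w] = [a w]`, so
`u (a w) = D (a * [w]) v₀ = a (D [w] v₀) + D a ([w] v₀) = a (u w) + D a w`. So
`D a = u * a - a * u`. -/
theorem derivation_inner {K V : Type*} [Field K] [AddCommGroup V] [Module K V]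
    (D : Module.End K V →ₗ[K] Module.End K V)
    (hD : ∀ a b, D (a * b) = D a * b + a * D b) :
    ∃ u : Module.End K V, ∀ a, D a = u * a - a * u := by
  by_cases hV : ∃ v₀ : V, v₀ ≠ 0
  · obtain ⟨v₀, hv₀⟩ := hV
    obtain ⟨f₀, hf₀⟩ : ∃ f : Module.Dual K V, f v₀ = 1 := by
      by_contra hcon
      push Not at hcon
      apply hv₀
      rw [← Module.forall_dual_apply_eq_zero_iff K v₀]
      intro φ
      by_contra hφ
      apply hcon ((φ v₀)⁻¹ • φ)
      rw [LinearMap.smul_apply, smul_eq_mul, inv_mul_cancel₀ hφ]
    refine ⟨{ toFun := fun w => D (LinearMap.smulRight f₀ w) v₀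
              map_add' := fun w w' => ?_
              map_smul' := fun r w => ?_ }, fun a => ?_⟩
    · have h : LinearMap.smulRight f₀ (w + w') =
          LinearMap.smulRight f₀ w + LinearMap.smulRight f₀ w' := by
        ext x
        simp
      rw [h, map_add, LinearMap.add_apply]
    · have h : LinearMap.smulRight f₀ (r • w) = r • LinearMap.smulRight f₀ w := by
        ext x
        show f₀ x • (r • w) = r • (f₀ x • w)
        rw [smul_comm]
      rw [h, map_smul, LinearMap.smul_apply, RingHom.id_apply]
    · ext w
      have h1 : LinearMap.smulRight f₀ (a w) = (a * LinearMap.smulRight f₀ w : Module.End K V) := by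
        ext x
        simp
      have h2 := congrArg (fun g : Module.End K V => g v₀) (hD a (LinearMap.smulRight f₀ w))
      simp only [LinearMap.add_apply, Module.End.mul_apply, LinearMap.smulRight_apply, hf₀,
        one_smul] at h2
      simp only [LinearMap.sub_apply, Module.End.mul_apply, LinearMap.coe_mk, AddHom.coe_mk]
      rw [h1, h2]
      abel
  · push Not at hV
    refine ⟨0, fun a => ?_⟩
    ext v
    rw [hV v]
    simp

end Pool.Agent.EXR
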