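import Mathlib

namespace Pool.Agent.EXR

/-- Module DNS. Burnside: if `ρ` is irreducible (in the elementwise sense) with scalar
endomorphisms only, its image spans `End V`.

Proof. Let `A = Algebra.adjoin K (Set.range ρ)`, a subalgebra of `End V`; its elements are the
linear combinations of the `ρ g` (`Algebra.adjoin_eq_span`; the closure of the range of `ρ` as a
submonoid is the range, `MonoidHom.mrange`). `V` is a simple `A`-module (an `A`-submodule is a
`K`-submodule stable under all `ρ g`), and an `A`-linear endomorphism is `K`-linear and commutes
with all `ρ g`, so it is a scalar. Let `f : End V`. As endomorphisms of the `A`-module `V` are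
scalars, `f` is linear over `Module.End A V`, so by `jacobson_density` there is `a ∈ A` that
agrees with `f` on a finite basis of `V`; so `f = a`. -/
theorem span_range_eq_top {K V G : Type*} [Field K] [AddCommGroup V] [Module K V]
    [FiniteDimensional K V] [Nontrivial V] [Group G] (ρ : G →* Module.End K V)
    (hirr : ∀ U : Submodule K V, (∀ g, ∀ v ∈ U, ρ g v ∈ U) → U = ⊥ ∨ U = ⊤)
    (hend : ∀ f : Module.End K V, (∀ g v, f (ρ g v) = ρ g (f v)) → ∃ c : K, ∀ v, f v = c • v) :
    Submodule.span K (Set.range ρ) = ⊤ := by
  classical
  set A : Subalgebra K (Module.End K V) := Algebra.adjoin K (Set.range ρ) with hA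
  have hspan : Subalgebra.toSubmodule A = Submodule.span K (Set.range ρ) := by
    rw [hA, Algebra.adjoin_eq_span]
    have : (Submonoid.closure (Set.range ρ) : Set (Module.End K V)) = Set.range ρ := by
      rw [← MonoidHom.coe_mrange, Submonoid.closure_eq]
    rw [this]
  have hmemA : ∀ g, ρ g ∈ A := fun g => Algebra.subset_adjoin ⟨g, rfl⟩
  have hsimp : IsSimpleModule A V := by
    rw [isSimpleModule_iff]
    have : Nontrivial (Submodule A V) := inferInstance
    refine ⟨fun U => ?_⟩
    let U' : Submodule K V :=
      { carrier := U
        add_mem' := fun ha hb => U.add_mem ha hb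
        zero_mem' := U.zero_mem
        smul_mem' := fun c x hx => by
          have := U.smul_mem (algebraMap K A c) hx
          have e : (algebraMap K A c) • x = c • x := by
            rw [algebraMap_smul]
          rwa [e] at this }
    rcases hirr U' (fun g v hv => U.smul_mem (⟨ρ g, hmemA g⟩ : A) hv) with h | h
    · left
      rw [Submodule.eq_bot_iff] at h ⊢
      exact fun x hx => h x hx
    · right
      rw [Submodule.eq_top_iff'] at h ⊢
      exact fun x => h x
  rw [← hspan]
  rw [Submodule.eq_top_iff']
  intro f
  -- `f` as an endomorphism over `End A V`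
  have hsc : ∀ e : Module.End A V, ∃ c : K, ∀ v, e v = c • v := by
    intro e
    let e' : Module.End K V :=
      { toFun := e
        map_add' := e.map_add
        map_smul' := fun c x => by
          have := e.map_smul (algebraMap K A c) x
          rwa [algebraMap_smul, algebraMap_smul] at this }
    exact hend e' (fun g v => e.map_smul (⟨ρ g, hmemA g⟩ : A) v)
  let F : Module.End (Module.End A V) V :=
    { toFun := f
      map_add' := f.map_add
      map_smul' := fun e x => by
        obtain ⟨c, hc⟩ := hsc e
        change f (e x) = e (f x)
        rw [hc, hc, map_smul] }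
  let b := Module.finBasis K V
  obtain ⟨a, ha⟩ := jacobson_density (R := A) (M := V) F (Finset.univ.image b)
  have hfa : f = (a : Module.End K V) := by
    apply b.ext
    intro i
    exact ha (b i) (Finset.mem_image_of_mem _ (Finset.mem_univ i))
  rw [hfa]
  exact a.2

end Pool.Agent.EXR
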