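import Mathlib
import Pool.Agent.FRC.SES
import Pool.Agent.FRC.K0

open CategoryTheory Polynomial NumberField

namespace Pool.Agent.EXR

open Pool.Agent.H12 Pool.Agent.FRC

section Reps

variable {k : Type} [Field k] [NumberField k] {ℓ : ℕ} [Fact ℓ.Prime]

/-- The twist `W(1)`: the same space, `g` acts as `χ(g) g`. -/
noncomputable def twRep (W : RepG k ℓ) : RepG k ℓ :=
  Rep.of (X := W)
    (MonoidHom.mk (OneHom.mk (fun g => chi k ℓ g • W.ρ g) (by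
      rw [chi_one, one_smul, map_one])) (fun g h => by
      change chi k ℓ (g * h) • W.ρ (g * h) = (chi k ℓ g • W.ρ g) * (chi k ℓ h • W.ρ h)
      rw [chi_mul, map_mul, smul_mul_smul_comm]))

theorem twRep_apply (W : RepG k ℓ) (g : GG k) (v : W) :
    (twRep W).ρ g v = chi k ℓ g • W.ρ g v := rfl

/-- The operator `(x, y) ↦ (χ(g) g x + κ(g) g y, g y)` on `W × W`. -/
noncomputable def kmOp (W : RepG k ℓ) (κ : GG k → ℤ_[ℓ]) (g : GG k) :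
    (W × W) →ₗ[ℚ_[ℓ]] W × W :=
  LinearMap.prod
    ((chi k ℓ g • W.ρ g) ∘ₗ LinearMap.fst ℚ_[ℓ] W W +
      (((κ g : ℤ_[ℓ]) : ℚ_[ℓ]) • W.ρ g) ∘ₗ LinearMap.snd ℚ_[ℓ] W W)
    (W.ρ g ∘ₗ LinearMap.snd ℚ_[ℓ] W W)

theorem kmOp_apply (W : RepG k ℓ) (κ : GG k → ℤ_[ℓ]) (g : GG k) (v : W × W) :
    kmOp W κ g v = (chi k ℓ g • W.ρ g v.1 + ((κ g : ℤ_[ℓ]) : ℚ_[ℓ]) • W.ρ g v.2, W.ρ g v.2) :=
  rfl

/-- The tensor product of `W` with the Kummer extension of `ℚ_ℓ` by `ℚ_ℓ(1)` given by the cocycle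
`κ`: `g` acts on `W × W` by `(x, y) ↦ (χ(g) g x + κ(g) g y, g y)`. -/
noncomputable def kmRep (W : RepG k ℓ) (κ : GG k → ℤ_[ℓ])
    (hκ : ∀ g h, κ (g * h) = κ g + (cyc k ℓ g : ℤ_[ℓ]) * κ h) : RepG k ℓ :=
  Rep.of (X := W × W)
    (MonoidHom.mk (OneHom.mk (kmOp W κ) (by
      have h1 : κ 1 = 0 := by
        have := hκ 1 1
        simpa using this
      apply LinearMap.ext
      intro v
      rw [kmOp_apply, chi_one, h1, map_one]
      simp)) (fun g h => by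
      change kmOp W κ (g * h) = kmOp W κ g * kmOp W κ h
      apply LinearMap.ext
      intro v
      rw [Module.End.mul_apply, kmOp_apply, kmOp_apply, kmOp_apply]
      have e1 : ∀ x : W, W.ρ (g * h) x = W.ρ g (W.ρ h x) := fun x => by
        rw [map_mul]; rfl
      refine Prod.ext ?_ ?_
      · simp only [e1, map_add, map_smul]
        rw [hκ, chi_mul]
        push_cast
        rw [add_smul, mul_smul, mul_smul, smul_add]
        change _ + (_ + chi k ℓ g • _) = _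
        abel
      · exact e1 v.2))

theorem kmRep_apply (W : RepG k ℓ) (κ : GG k → ℤ_[ℓ])
    (hκ : ∀ g h, κ (g * h) = κ g + (cyc k ℓ g : ℤ_[ℓ]) * κ h) (g : GG k) (v : W × W) :
    (kmRep W κ hκ).ρ g v =
      ((chi k ℓ g • W.ρ g v.1 + ((κ g : ℤ_[ℓ]) : ℚ_[ℓ]) • W.ρ g v.2, W.ρ g v.2) : W × W) :=
  rfl

/-- The identity map of the space of `W` as a map to `W(1)`. -/
noncomputable def twE (W : RepG k ℓ) : W ≃ₗ[ℚ_[ℓ]] (twRep W) := LinearEquiv.refl ℚ_[ℓ] W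

theorem twE_apply (W : RepG k ℓ) (g : GG k) (v : W) :
    (twRep W).ρ g (twE W v) = twE W (chi k ℓ g • W.ρ g v) := rfl

/-- The identity map of `W × W` as a map to `kmRep W κ`. -/
noncomputable def kmE (W : RepG k ℓ) (κ : GG k → ℤ_[ℓ])
    (hκ : ∀ g h, κ (g * h) = κ g + (cyc k ℓ g : ℤ_[ℓ]) * κ h) :
    (W × W) ≃ₗ[ℚ_[ℓ]] (kmRep W κ hκ) := LinearEquiv.refl ℚ_[ℓ] (W × W)

theorem kmE_apply (W : RepG k ℓ) (κ : GG k → ℤ_[ℓ])
    (hκ : ∀ g h, κ (g * h) = κ g + (cyc k ℓ g : ℤ_[ℓ]) * κ h) (g : GG k) (v : W × W) :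
    (kmRep W κ hκ).ρ g (kmE W κ hκ v) = kmE W κ hκ
      (chi k ℓ g • W.ρ g v.1 + ((κ g : ℤ_[ℓ]) : ℚ_[ℓ]) • W.ρ g v.2, W.ρ g v.2) := rfl

end Reps

/-- Kummer data for `p ^ e * Q ^ b`, where `b` is an `ℓ`-adic integer (the limit of the integers
`b n`) such that this product is infinitely `ℓ`-divisible in `ℤ_ℓˣ`: compatible roots and the
Kummer cocycle, which splits at every place above `ℓ`. -/
structure KumP (k : Type) [Field k] [NumberField k] (ℓ : ℕ) [Fact ℓ.Prime] (p : ℕ) where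
  e : ℕ
  Q : ℕ
  b : ℕ → ℕ
  ζ : ℕ → AlgebraicClosure k
  u : ℕ → AlgebraicClosure k
  κ : GG k → ℤ_[ℓ]
  he : 0 < e
  hQ : 0 < Q
  hpQ : ¬ p ∣ Q
  prim : ∀ n, IsPrimitiveRoot (ζ n) (ℓ ^ n)
  u_pow : ∀ n, 1 ≤ n → u n ^ ℓ ^ n = ((p ^ e * Q ^ b n : ℕ) : AlgebraicClosure k)
  spec : ∀ n g, g (u n) = ζ n ^ (PadicInt.toZModPow n (κ g)).val * u n
  cocycle : ∀ g h, κ (g * h) = κ g + (cyc k ℓ g : ℤ_[ℓ]) * κ h
  cont : Continuous κ
  split : ∀ ι : AlgebraicClosure k →+* PadicAlgCl ℓ, ∃ c : ℤ_[ℓ], ∀ (g : GG k) (σ : GalP ℓ),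
    (∀ x, ι (g x) = σ (ι x)) → κ g = ((cyc k ℓ g : ℤ_[ℓ]) - 1) * c

end Pool.Agent.EXR
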