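import Mathlib

open Polynomial

namespace Pool.Agent.EXR

theorem fssa_aeval {K A E : Type*} [Field K] [AddCommGroup A] [Module K A] [AddCommGroup E]
    [Module K E] (t : Module.End K A) (sE : Module.End K E) (g : A →ₗ[K] E)
    (hg : ∀ a, g (t a) = sE (g a)) (Q : K[X]) (a : A) : g (aeval t Q a) = aeval sE Q (g a) := by
  have hpow : ∀ (n : ℕ) (a : A), g ((t ^ n) a) = (sE ^ n) (g a) := by
    intro n
    induction n with
    | zero => intro a; simp
    | succ n ih =>
      intro a
      rw [pow_succ, pow_succ, Module.End.mul_apply, Module.End.mul_apply, ih, hg]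
  induction Q using Polynomial.induction_on' with
  | add Q R hQ hR =>
    rw [map_add, map_add, LinearMap.add_apply, LinearMap.add_apply, map_add, hQ, hR]
  | monomial n r =>
    rw [aeval_monomial, aeval_monomial, Module.End.mul_apply, Module.End.mul_apply,
      Module.algebraMap_end_apply, Module.algebraMap_end_apply, map_smul, hpow]

/-- Module FSSA. Linear algebra: if `sE` on `E` is compatible with `sW` on the subspace `W` and
`sV` on the quotient `V`, there is a section commuting with the operators, and `sW`, `sV` are
semisimple, then so is `sE`.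

Proof. `Module.End.IsSemisimple.minpoly_squarefree` for `sW` and `sV`; a squarefree polynomial
divisible by both (their lcm, or the radical of the product) kills `sE` (on `c w + s v`), and
`Module.End.isSemisimple_of_squarefree_aeval_eq_zero`. (Or: `E` is the sum of the two semisimple
`K[X]`-submodules `range c` and `range s`.) -/
theorem semisimple_of_section {K : Type*} [Field K] {W E V : Type*} [AddCommGroup W] [Module K W]
    [FiniteDimensional K W] [AddCommGroup E] [Module K E] [FiniteDimensional K E]
    [AddCommGroup V] [Module K V] [FiniteDimensional K V]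
    (sW : Module.End K W) (sE : Module.End K E) (sV : Module.End K V)
    (c : W →ₗ[K] E) (hc : ∀ w, c (sW w) = sE (c w)) (d : E →ₗ[K] V)
    (hdk : ∀ e, d e = 0 → ∃ w, c w = e)
    (s : V →ₗ[K] E) (hs : ∀ v, d (s v) = v) (hsσ : ∀ v, s (sV v) = sE (s v))
    (hW : sW.IsSemisimple) (hV : sV.IsSemisimple) : sE.IsSemisimple := by
  classical
  have hp0 : minpoly K sW ≠ 0 := minpoly.ne_zero (Algebra.IsIntegral.isIntegral sW)
  have hq0 : minpoly K sV ≠ 0 := minpoly.ne_zero (Algebra.IsIntegral.isIntegral sV)
  have hps : Squarefree (minpoly K sW) := hW.minpoly_squarefree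
  have hqs : Squarefree (minpoly K sV) := hV.minpoly_squarefree
  have h0 : minpoly K sW * minpoly K sV ≠ 0 := mul_ne_zero hp0 hq0
  -- a squarefree common multiple
  obtain ⟨P, hP, hpP, hqP⟩ : ∃ P : K[X], Squarefree P ∧ minpoly K sW ∣ P ∧ minpoly K sV ∣ P := by
    refine ⟨UniqueFactorizationMonoid.radical (minpoly K sW * minpoly K sV),
      UniqueFactorizationMonoid.squarefree_radical, ?_, ?_⟩
    · exact (UniqueFactorizationMonoid.dvd_radical_iff hps.isRadical h0).2 (dvd_mul_right _ _)
    · exact (UniqueFactorizationMonoid.dvd_radical_iff hqs.isRadical h0).2 (dvd_mul_left _ _)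
  have hPW : aeval sW P = 0 := by
    obtain ⟨R, hR⟩ := hpP
    rw [hR, map_mul, minpoly.aeval, zero_mul]
  have hPV : aeval sV P = 0 := by
    obtain ⟨R, hR⟩ := hqP
    rw [hR, map_mul, minpoly.aeval, zero_mul]
  have hPE : aeval sE P = 0 := by
    ext e
    obtain ⟨w, hw⟩ := hdk (e - s (d e)) (by rw [map_sub, hs, sub_self])
    have he : e = c w + s (d e) := by rw [hw]; abel
    have h1 := fssa_aeval sW sE c hc P w
    have h2 := fssa_aeval sV sE s hsσ P (d e)
    rw [hPW, LinearMap.zero_apply, map_zero] at h1
    rw [hPV, LinearMap.zero_apply, map_zero] at h2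
    rw [he, map_add, ← h1, ← h2, add_zero, LinearMap.zero_apply]
  exact Module.End.isSemisimple_of_squarefree_aeval_eq_zero hP hPE

end Pool.Agent.EXR
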