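import Mathlib
import Pool.Agent.EXK.SPF
import Pool.Agent.FRC.SES

open CategoryTheory CategoryTheory.Limits CategoryTheory.Abelian NumberField

namespace Pool.Agent.EXR

open Pool.Agent.H12 Pool.Agent.FRC

variable {k : Type} [Field k] [NumberField k] {ℓ : ℕ} [Fact ℓ.Prime]

/-- Rigidity with coefficients, in terms of `ℚ_ℓ`-algebra actions. -/
theorem rigid_core {F : Type} [Field F] [Algebra ℚ_[ℓ] F] [FiniteDimensional ℚ_[ℓ] F]
    {V E : MixCat k ℓ} (c : V ⟶ E) (d : E ⟶ V) (w : c ≫ d = 0)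
    (hS : (ShortComplex.mk c d w).ShortExact)
    (aV : F →ₐ[ℚ_[ℓ]] Module.End ℚ_[ℓ] V.obj) (aE : F →ₐ[ℚ_[ℓ]] Module.End ℚ_[ℓ] E.obj)
    (hV : ∀ (x : F) (g : GG k) (v : V.obj), aV x (V.obj.ρ g v) = V.obj.ρ g (aV x v))
    (hE : ∀ (x : F) (g : GG k) (v : E.obj), aE x (E.obj.ρ g v) = E.obj.ρ g (aE x v))
    (hc : ∀ (x : F) (v : V.obj), c.hom.hom (aV x v) = aE x (c.hom.hom v))
    (hd : ∀ (x : F) (v : E.obj), d.hom.hom (aE x v) = aV x (d.hom.hom v))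
    (hirr : ∀ A : Submodule ℚ_[ℓ] V.obj, (∀ (g : GG k), ∀ v ∈ A, V.obj.ρ g v ∈ A) →
      (∀ (x : F), ∀ v ∈ A, aV x v ∈ A) → A = ⊥ ∨ A = ⊤)
    (hend : ∀ f : V.obj →ₗ[ℚ_[ℓ]] V.obj, (∀ (g : GG k) v, f (V.obj.ρ g v) = V.obj.ρ g (f v)) →
      (∀ (x : F) v, f (aV x v) = aV x (f v)) → ∃ x : F, ∀ v, f v = aV x v)
    {N : ℕ} (hN : N ≠ 0)
    (hloc : ∀ 𝔓 : Ideal (Zb k), 𝔓.IsMaximal → (N : Zb k) ∉ 𝔓 → ∀ σ : GG k,
      FrobAt 𝔓 (nrm 𝔓) σ → ∃ r : E.obj →ₗ[ℚ_[ℓ]] V.obj, (∀ v, r (c.hom.hom v) = v) ∧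
        ∀ e, r (E.obj.ρ σ e) = V.obj.ρ σ (r e)) :
    ∃ s : V ⟶ E, s ≫ d = 𝟙 V ∧ ∀ (x : F) (v : V.obj), s.hom.hom (aV x v) = aE x (s.hom.hom v) := by
  rw [shortExact_iff] at hS
  obtain ⟨h1, h2, h3⟩ := hS
  letI mV : Module F V.obj := Module.compHom V.obj aV.toRingHom
  letI mE : Module F E.obj := Module.compHom E.obj aE.toRingHom
  have eV : ∀ (x : F) (v : V.obj), x • v = aV x v := fun x v => rfl
  have eE : ∀ (x : F) (v : E.obj), x • v = aE x v := fun x v => rfl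
  have tV : IsScalarTower ℚ_[ℓ] F V.obj := ⟨fun y x v => by
    rw [eV, eV, map_smul]; rfl⟩
  have tE : IsScalarTower ℚ_[ℓ] F E.obj := ⟨fun y x v => by
    rw [eE, eE, map_smul]; rfl⟩
  have fV : FiniteDimensional ℚ_[ℓ] V.obj := V.property.1
  have fE : FiniteDimensional ℚ_[ℓ] E.obj := E.property.1
  have hcomm : ∀ {A B : MixCat k ℓ} (f : A ⟶ B) (g : GG k) (x : A.obj),
      f.hom.hom (A.obj.ρ g x) = B.obj.ρ g (f.hom.hom x) := fun f g x =>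
    Rep.hom_comm_apply f.hom g x
  let cL : V.obj →ₗ[ℚ_[ℓ]] E.obj := c.hom.hom.toLinearMap
  let dL : E.obj →ₗ[ℚ_[ℓ]] V.obj := d.hom.hom.toLinearMap
  let cF : V.obj →ₗ[F] E.obj :=
    { toFun := cL, map_add' := cL.map_add, map_smul' := fun x v => hc x v }
  let dF : E.obj →ₗ[F] V.obj :=
    { toFun := dL, map_add' := dL.map_add, map_smul' := fun x v => hd x v }
  obtain ⟨s, hs1, hs2⟩ := EXK.section_of_frob (F := F) (V := V.obj) (E := E.obj)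
    V.property.2.1 E.property.2.1
    (fun g x v => (hV x g v).symm) (fun g x v => (hE x g v).symm) cF dF h1 h2
    (fun v => congrArg (fun t => t.hom.hom v) w) h3
    (fun g v => (hcomm c g v).symm) (fun g e => hcomm d g e)
    (fun A hA => by
      rcases hirr (A.restrictScalars ℚ_[ℓ]) hA (fun x v hv => A.smul_mem x hv) with h | h
      · exact Or.inl ((Submodule.restrictScalars_eq_bot_iff ..).1 h)
      · exact Or.inr ((Submodule.restrictScalars_eq_top_iff ..).1 h))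
    (fun f hf => hend (f.restrictScalars ℚ_[ℓ]) hf (fun x v => f.map_smul x v)) hN hloc
  let s0 : V.obj →ₗ[ℚ_[ℓ]] E.obj := s.restrictScalars ℚ_[ℓ]
  let s1 : V.obj ⟶ E.obj := Rep.ofHom
    (s0.intertwiningMap_of_isIntertwiningMap V.obj.ρ E.obj.ρ (fun g v => (hs1 g v).symm))
  refine ⟨ObjectProperty.homMk s1, ?_, fun x v => s.map_smul x v⟩
  apply ObjectProperty.hom_ext
  apply Rep.hom_ext
  apply Representation.IntertwiningMap.ext
  apply LinearMap.ext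
  intro v
  exact hs2 v

end Pool.Agent.EXR
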