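import Mathlib
import Pool.Agent.FRC.SES

open CategoryTheory CategoryTheory.Limits CategoryTheory.Abelian NumberField

namespace Pool.Agent.EXR

open Pool.Agent.H12 Pool.Agent.FRC

variable {k : Type} [Field k] [NumberField k] {ℓ : ℕ} [Fact ℓ.Prime]

/-- A stable subspace as an object. -/
noncomputable def subO (V : MixCat k ℓ) (S : Submodule ℚ_[ℓ] V.obj)
    (hS : ∀ g : GG k, S ≤ S.comap (V.obj.ρ g)) : MixCat k ℓ :=
  ⟨Rep.subrepresentation V.obj S hS, by
    have : Mono (Rep.subtype V.obj S hS) :=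
      (Rep.mono_iff_injective _).mpr (Submodule.subtype_injective S)
    exact (InC k ℓ).prop_of_mono (Rep.subtype V.obj S hS) V.property⟩

noncomputable def subI (V : MixCat k ℓ) (S : Submodule ℚ_[ℓ] V.obj)
    (hS : ∀ g : GG k, S ≤ S.comap (V.obj.ρ g)) : subO V S hS ⟶ V :=
  ObjectProperty.homMk (Rep.subtype V.obj S hS)

/-- A simple object has no stable subspaces. -/
theorem simple_dich {V : MixCat k ℓ} (hV : Simple V) (S : Submodule ℚ_[ℓ] V.obj)
    (h : ∀ (g : GG k), ∀ v ∈ S, V.obj.ρ g v ∈ S) : S = ⊥ ∨ S = ⊤ := by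
  have hS : ∀ g : GG k, S ≤ S.comap (V.obj.ρ g) := fun g v hv => h g v hv
  have hm : Mono (subI V S hS) := (mono_iff _).mpr (Submodule.subtype_injective S)
  by_cases h0 : subI V S hS = 0
  · left
    rw [Submodule.eq_bot_iff]
    intro x hx
    have : (subI V S hS).hom.hom (⟨x, hx⟩ : S) = 0 := by rw [h0]; rfl
    exact this
  · right
    have hiso : IsIso (subI V S hS) := (Simple.mono_isIso_iff_nonzero _).mpr h0
    have hsur := (epi_iff (subI V S hS)).mp inferInstance
    rw [Submodule.eq_top_iff']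
    intro x
    obtain ⟨y, hy⟩ := hsur x
    let y' : S := y
    have : S.subtype y' = x := hy
    rw [← this]
    exact y'.2

end Pool.Agent.EXR
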