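import Mathlib
import Pool.Agent.EXR.RGF
import Pool.Agent.EXR.SID
import Pool.Agent.EXR.FSSA
import Pool.Agent.FRC.DEV
import Pool.Agent.EXK.ASM

open CategoryTheory CategoryTheory.Limits CategoryTheory.Abelian NumberField

namespace Pool.Agent.EXR

open Pool.Agent.H12 Pool.Agent.FRC

variable {k : Type} [Field k] [NumberField k] {ℓ : ℕ} [Fact ℓ.Prime]

theorem hom_comm' {A B : MixCat k ℓ} (f : A ⟶ B) (g : GG k) (x : A.obj) :
    f.hom.hom (A.obj.ρ g x) = B.obj.ρ g (f.hom.hom x) :=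
  Rep.hom_comm_apply f.hom g x

theorem nrm_ne_zero' {𝔓 : Ideal (Zb k)} (h𝔓 : 𝔓.IsMaximal) : nrm 𝔓 ≠ 0 := by
  have := one_lt_nrm h𝔓
  omega

/-- The retractions at almost all primes. -/
theorem frob_retract_N {V W E : MixCat k ℓ} {a : W ⟶ E} {b : E ⟶ V} {wab : a ≫ b = 0}
    (hS : (ShortComplex.mk a b wab).ShortExact)
    (h2 : ∀ x : Ext.{1} V (EXK.twObj W) 2, x = 0) :
    ∃ N : ℕ, N ≠ 0 ∧ ∀ 𝔓 : Ideal (Zb k), 𝔓.IsMaximal → (N : Zb k) ∉ 𝔓 → ∀ σ : GG k,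
      FrobAt 𝔓 (nrm 𝔓) σ → ∃ r : E.obj →ₗ[ℚ_[ℓ]] W.obj, (∀ w, r (a.hom.hom w) = w) ∧
        ∀ e, r (E.obj.ρ σ e) = W.obj.ρ σ (r e) := by
  have hℓ : ℓ.Prime := Fact.out
  obtain ⟨N, hN, hE⟩ := E.property.2.2.1
  refine ⟨N * ℓ, mul_ne_zero hN hℓ.ne_zero, ?_⟩
  intro 𝔓 h𝔓 hmem σ hσ
  have h1 : (N : Zb k) ∉ 𝔓 := fun h => hmem (by
    rw [Nat.cast_mul]; exact Ideal.mul_mem_right _ _ h)
  have h3 : (ℓ : Zb k) ∉ 𝔓 := fun h => hmem (by
    rw [Nat.cast_mul]; exact Ideal.mul_mem_left _ _ h)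
  exact EXK.frob_split hS h2 hE h𝔓 h3 h1 (nrm_ne_zero' h𝔓) hσ

/-- Rigidity with coefficients. -/
theorem rigid_F {F : Type} [Field F] [Algebra ℚ_[ℓ] F] [FiniteDimensional ℚ_[ℓ] F]
    {V E : MixCat k ℓ} (c : V ⟶ E) (d : E ⟶ V) (w : c ≫ d = 0)
    (hS : (ShortComplex.mk c d w).ShortExact)
    (h2 : ∀ x : Ext.{1} V (EXK.twObj V) 2, x = 0)
    (aV : F →ₐ[ℚ_[ℓ]] Module.End ℚ_[ℓ] V.obj) (aE : F →ₐ[ℚ_[ℓ]] Module.End ℚ_[ℓ] E.obj)
    (hV : ∀ (x : F) (g : GG k) (v : V.obj), aV x (V.obj.ρ g v) = V.obj.ρ g (aV x v))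
    (hE : ∀ (x : F) (g : GG k) (v : E.obj), aE x (E.obj.ρ g v) = E.obj.ρ g (aE x v))
    (hc : ∀ (x : F) (v : V.obj), c.hom.hom (aV x v) = aE x (c.hom.hom v))
    (hd : ∀ (x : F) (v : E.obj), d.hom.hom (aE x v) = aV x (d.hom.hom v))
    (hirr : ∀ A : Submodule ℚ_[ℓ] V.obj, (∀ (g : GG k), ∀ v ∈ A, V.obj.ρ g v ∈ A) →
      (∀ (x : F), ∀ v ∈ A, aV x v ∈ A) → A = ⊥ ∨ A = ⊤)
    (hend : ∀ f : V.obj →ₗ[ℚ_[ℓ]] V.obj, (∀ (g : GG k) v, f (V.obj.ρ g v) = V.obj.ρ g (f v)) →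
      (∀ (x : F) v, f (aV x v) = aV x (f v)) → ∃ x : F, ∀ v, f v = aV x v) :
    ∃ s : V ⟶ E, s ≫ d = 𝟙 V ∧ ∀ (x : F) (v : V.obj), s.hom.hom (aV x v) = aE x (s.hom.hom v) := by
  obtain ⟨N, hN, hloc⟩ := frob_retract_N hS h2
  exact rigid_core c d w hS aV aE hV hE hc hd hirr hend hN hloc

/-- Rigidity over `ℚ_ℓ`. -/
theorem rigid_ext {V : MixCat k ℓ} (hV : Simple V)
    (hend : ∀ f : V ⟶ V, ∃ c : ℚ_[ℓ], ∀ v : V.obj, f.hom.hom v = c • v)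
    (h2 : ∀ x : Ext.{1} V (EXK.twObj V) 2, x = 0) : Subsingleton (Ext.{1} V V 1) := by
  have key : ∀ x : Ext.{1} V V 1, x = 0 := by
    intro x
    obtain ⟨E, c, d, w, hS, rfl⟩ := EXK.exists_extClass x
    obtain ⟨s, hs, -⟩ := rigid_F (F := ℚ_[ℓ]) c d w hS h2 (Algebra.ofId _ _) (Algebra.ofId _ _)
      (fun x g v => by
        change x • V.obj.ρ g v = V.obj.ρ g (x • v)
        rw [map_smul])
      (fun x g v => by
        change x • E.obj.ρ g v = E.obj.ρ g (x • v)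
        rw [map_smul])
      (fun x v => by
        change c.hom.hom (x • v) = x • c.hom.hom v
        exact c.hom.hom.toLinearMap.map_smul x v)
      (fun x v => by
        change d.hom.hom (x • v) = x • d.hom.hom v
        exact d.hom.hom.toLinearMap.map_smul x v)
      (fun A hA _ => simple_dich hV A hA)
      (fun f hf _ => by
        let f0 : V.obj ⟶ V.obj := Rep.ofHom
          (f.intertwiningMap_of_isIntertwiningMap V.obj.ρ V.obj.ρ hf)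
        obtain ⟨y, hy⟩ := hend (ObjectProperty.homMk f0)
        exact ⟨y, hy⟩)
    have h1 : (Ext.mk₀ (𝟙 V)).comp hS.extClass (zero_add 1) = hS.extClass :=
      Ext.mk₀_id_comp _
    rw [← hs, ← Ext.mk₀_comp_mk₀, Ext.comp_assoc_of_second_deg_zero] at h1
    rw [← h1, hS.comp_extClass, Ext.comp_zero]
  exact ⟨fun a b => by rw [key a, key b]⟩

/-- The Frobenius elements at almost all primes act semisimply. -/
def FrobSS' (V : RepG k ℓ) : Prop :=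
  ∃ N : ℕ, N ≠ 0 ∧ ∀ 𝔓 : Ideal (Zb k), 𝔓.IsMaximal → (N : Zb k) ∉ 𝔓 →
    ∀ σ : GG k, FrobAt 𝔓 (nrm 𝔓) σ → Module.End.IsSemisimple (V.ρ σ : Module.End ℚ_[ℓ] V)

/-- a section that commutes with `φ` from a retraction that does -/
theorem section_at {V W E : MixCat k ℓ} {a : W ⟶ E} {b : E ⟶ V} {wab : a ≫ b = 0}
    (hS : (ShortComplex.mk a b wab).ShortExact) (φ : GG k) (r : E.obj →ₗ[ℚ_[ℓ]] W.obj)
    (hr : ∀ w, r (a.hom.hom w) = w) (hrφ : ∀ e, r (E.obj.ρ φ e) = W.obj.ρ φ (r e)) :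
    ∃ s : V.obj →ₗ[ℚ_[ℓ]] E.obj, (∀ v, b.hom.hom (s v) = v) ∧
      ∀ v, s (V.obj.ρ φ v) = E.obj.ρ φ (s v) := by
  rw [shortExact_iff] at hS
  obtain ⟨h1, h2, h3⟩ := hS
  have hcomm : ∀ {A B : MixCat k ℓ} (f : A ⟶ B) (g : GG k) (x : A.obj),
      f.hom.hom (A.obj.ρ g x) = B.obj.ρ g (f.hom.hom x) := fun f g x =>
    Rep.hom_comm_apply f.hom g x
  let aL : W.obj →ₗ[ℚ_[ℓ]] E.obj := a.hom.hom.toLinearMap
  let bL : E.obj →ₗ[ℚ_[ℓ]] V.obj := b.hom.hom.toLinearMap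
  have haL : ∀ w, r (aL w) = w := hr
  have hb0 : ∀ w, bL (aL w) = 0 := fun w => congrArg (fun t => t.hom.hom w) wab
  obtain ⟨s0, hs0⟩ := bL.exists_rightInverse_of_surjective (LinearMap.range_eq_top.2 h2)
  have hs0' : ∀ v, bL (s0 v) = v := fun v => LinearMap.congr_fun hs0 v
  refine ⟨s0 - aL ∘ₗ r ∘ₗ s0, fun v => ?_, fun v => ?_⟩
  · change bL (s0 v - aL (r (s0 v))) = v
    rw [map_sub, hb0, sub_zero, hs0']
  · change s0 (V.obj.ρ φ v) - aL (r (s0 (V.obj.ρ φ v))) = E.obj.ρ φ (s0 v - aL (r (s0 v)))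
    have key : ∀ e : E.obj, bL e = 0 → r e = 0 → e = 0 := by
      intro e he hre
      obtain ⟨w, hw⟩ := h3 e he
      have hw' : aL w = e := hw
      rw [← hw', haL] at hre
      rw [← hw', hre, map_zero]
    rw [← sub_eq_zero]
    apply key
    · have e1 : bL (E.obj.ρ φ (s0 v - aL (r (s0 v)))) =
          V.obj.ρ φ (bL (s0 v - aL (r (s0 v)))) := hcomm b φ _
      rw [map_sub, map_sub, e1, map_sub, hb0, hb0, sub_zero, sub_zero, hs0', hs0', sub_self]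
    · rw [map_sub, map_sub, hrφ, map_sub, haL, haL, sub_self, sub_self, map_zero, sub_zero]


/-- If `Ext² = 0` in the category and all simple objects are Frobenius semisimple then all
objects are. -/
theorem frobSS_all (h2 : ∀ X Y : MixCat k ℓ, Subsingleton (Ext.{1} X Y 2))
    (hs : ∀ X : MixCat k ℓ, Simple X → FrobSS' X.obj) (X : MixCat k ℓ) : FrobSS' X.obj := by
  refine devissage (fun X : MixCat k ℓ => Module.finrank ℚ_[ℓ] X.obj) finrank_shortExact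
    (fun X hX => (isZero_iff_finrank X).2 hX) (fun X => FrobSS' X.obj) ?_ hs ?_ X
  · intro X hX
    have hfd : FiniteDimensional ℚ_[ℓ] X.obj := X.property.1
    have h0 : Subsingleton X.obj := Module.finrank_zero_iff.1 ((isZero_iff_finrank X).1 hX)
    refine ⟨1, one_ne_zero, fun 𝔓 _ _ σ _ => ?_⟩
    have : (X.obj.ρ σ : Module.End ℚ_[ℓ] X.obj) = 0 := LinearMap.ext fun v =>
      Subsingleton.elim _ _
    rw [this]
    exact Module.End.isSemisimple_zero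
  · rintro S hS ⟨N₁, hN₁, h₁⟩ ⟨N₃, hN₃, h₃⟩
    obtain ⟨N, hN, hloc⟩ := frob_retract_N (a := S.f) (b := S.g) (wab := S.zero) hS
      (fun x => (h2 _ _).elim x 0)
    refine ⟨N * (N₁ * N₃), mul_ne_zero hN (mul_ne_zero hN₁ hN₃), ?_⟩
    intro 𝔓 h𝔓 hmem σ hσ
    have e1 : (N : Zb k) ∉ 𝔓 := fun h => hmem (by
      rw [Nat.cast_mul]; exact Ideal.mul_mem_right _ _ h)
    have e2 : (N₁ : Zb k) ∉ 𝔓 := fun h => hmem (by
      rw [Nat.cast_mul, Nat.cast_mul]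
      exact Ideal.mul_mem_left _ _ (Ideal.mul_mem_right _ _ h))
    have e3 : (N₃ : Zb k) ∉ 𝔓 := fun h => hmem (by
      rw [Nat.cast_mul, Nat.cast_mul]
      exact Ideal.mul_mem_left _ _ (Ideal.mul_mem_left _ _ h))
    obtain ⟨r, hr1, hr2⟩ := hloc 𝔓 h𝔓 e1 σ hσ
    obtain ⟨s, hs1, hs2⟩ := section_at (a := S.f) (b := S.g) (wab := S.zero) hS σ r hr1 hr2
    have hex := (shortExact_iff _).1 hS
    have f1 : FiniteDimensional ℚ_[ℓ] S.X₁.obj := S.X₁.property.1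
    have f2 : FiniteDimensional ℚ_[ℓ] S.X₂.obj := S.X₂.property.1
    have f3 : FiniteDimensional ℚ_[ℓ] S.X₃.obj := S.X₃.property.1
    exact semisimple_of_section (S.X₁.obj.ρ σ : Module.End ℚ_[ℓ] S.X₁.obj)
      (S.X₂.obj.ρ σ : Module.End ℚ_[ℓ] S.X₂.obj) (S.X₃.obj.ρ σ : Module.End ℚ_[ℓ] S.X₃.obj)
      S.f.hom.hom.toLinearMap (fun w => hom_comm' S.f σ w) S.g.hom.hom.toLinearMap
      (fun e he => hex.2.2 e he) s hs1 hs2 (h₁ 𝔓 h𝔓 e2 σ hσ) (h₃ 𝔓 h𝔓 e3 σ hσ)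

end Pool.Agent.EXR
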