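import Mathlib
import Pool.Agent.EXK.OBJ
import Pool.Agent.EXK.RC
import Pool.Agent.EXK.YLF
import Pool.Agent.EXK.LOC
import Pool.Agent.FRC.SES
import Pool.Agent.EXK.ASM

/-!
If `Ext²(V, W(1)) = 0` in the category, every extension of `V` by `W` splits over `ℚ_ℓ[Frob]` at
every good prime not above `ℓ`.
-/

open CategoryTheory CategoryTheory.Limits CategoryTheory.Abelian Polynomial NumberField
  TensorProduct

namespace Pool.Agent.EXR

open Pool.Agent.H12 Pool.Agent.FRC Pool.Agent.EXK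

variable {k : Type} [Field k] [NumberField k] {ℓ : ℕ} [Fact ℓ.Prime]

/-- The object `W ⊗ K` with its two maps. -/
private theorem asm_kum (W : MixCat k ℓ) (κ : GG k → ℤ_[ℓ])
    (hκ : ∀ g h, κ (g * h) = κ g + (cyc k ℓ g : ℤ_[ℓ]) * κ h) (hc : Continuous κ)
    (hK : InC k ℓ (Rep.of (kum 0 κ hκ hc).ρ)) :
    ∃ (i' : twObj W ⟶ (⟨kumRep W.obj κ hκ, kumRep_inC W.property κ hκ hc hK⟩ : MixCat k ℓ))
      (p' : (⟨kumRep W.obj κ hκ, kumRep_inC W.property κ hκ hc hK⟩ : MixCat k ℓ) ⟶ W)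
      (w' : i' ≫ p' = 0), (ShortComplex.mk i' p' w').ShortExact ∧
      (∀ w : W.obj, i'.hom.hom w = ((w, 0) : W.obj × W.obj)) ∧
      ∀ w : W.obj × W.obj, p'.hom.hom w = w.2 := by
  let E : MixCat k ℓ := ⟨kumRep W.obj κ hκ, kumRep_inC W.property κ hκ hc hK⟩
  let i0 : (twRep W.obj) ⟶ kumRep W.obj κ hκ := Rep.ofHom
    ((LinearMap.inl ℚ_[ℓ] W.obj W.obj).intertwiningMap_of_isIntertwiningMap
      (twRep W.obj).ρ (kumRep W.obj κ hκ).ρ (fun g (v : W.obj) => by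
        change ((chi k ℓ g • W.obj.ρ g v, 0) : W.obj × W.obj) =
          (chi k ℓ g • W.obj.ρ g v + (κ g : ℚ_[ℓ]) • W.obj.ρ g 0, W.obj.ρ g 0)
        rw [map_zero, smul_zero, add_zero]))
  let p0 : kumRep W.obj κ hκ ⟶ W.obj := Rep.ofHom
    ((LinearMap.snd ℚ_[ℓ] W.obj W.obj).intertwiningMap_of_isIntertwiningMap
      (kumRep W.obj κ hκ).ρ W.obj.ρ (fun g (v : W.obj × W.obj) => rfl))
  let i : twObj W ⟶ E := ObjectProperty.homMk i0
  let p : E ⟶ W := ObjectProperty.homMk p0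
  have hip : i ≫ p = 0 := by
    apply ObjectProperty.hom_ext
    apply Rep.hom_ext
    apply Representation.IntertwiningMap.ext
    apply LinearMap.ext
    intro v
    rfl
  refine ⟨i, p, hip, ?_, fun w => rfl, fun w => rfl⟩
  rw [shortExact_iff]
  refine ⟨?_, ?_, ?_⟩
  · intro x y hxy
    exact congrArg Prod.fst (hxy : ((x, 0) : W.obj × W.obj) = (y, 0))
  · intro y
    exact ⟨((0, y) : W.obj × W.obj), rfl⟩
  · intro (y : W.obj × W.obj) (hy : y.2 = 0)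
    refine ⟨y.1, ?_⟩
    change ((y.1, 0) : W.obj × W.obj) = y
    rw [← hy]

/-- Theorem (1), at one prime. -/
theorem frob_split_at {V W E : MixCat k ℓ} {a : W ⟶ E} {b : E ⟶ V} {wab : a ≫ b = 0}
    (hS : (ShortComplex.mk a b wab).ShortExact) (h2 : ∀ x : Ext.{1} V (twObj W) 2, x = 0)
    {𝔓 : Ideal (Zb k)} (h𝔓 : 𝔓.IsMaximal)
    (hℓ : (ℓ : Zb k) ∉ 𝔓) (hE : ∀ τ : GG k, FrobAt 𝔓 1 τ → ∀ v : E.obj, E.obj.ρ τ v = v) {q : ℕ} (hq : q ≠ 0) {φ : GG k}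
    (hφ : FrobAt 𝔓 q φ) :
    ∃ r : E.obj →ₗ[ℚ_[ℓ]] W.obj, (∀ w, r (a.hom.hom w) = w) ∧
      ∀ e, r (E.obj.ρ φ e) = W.obj.ρ φ (r e) := by
  obtain ⟨p₀, f₀, hp₀, -, -, hp𝔓⟩ := nrm_prime_pow h𝔓
  have hpℓ : p₀ ≠ ℓ := by
    rintro rfl
    exact hℓ hp𝔓
  obtain ⟨κ, hκ, hc, hK, hram⟩ := exists_ramified_class k ℓ p₀ hp₀ hpℓ
  obtain ⟨τ, hτ, hκτ⟩ := hram 𝔓 h𝔓 hp𝔓
  obtain ⟨i', p', w', hT, hi', hp'⟩ := asm_kum W κ hκ hc hK
  obtain ⟨X, i, p, m, w, hX, him, hmp⟩ := exists_lift hS hT h2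
  rw [shortExact_iff] at hX hS
  obtain ⟨hX1, hX2, hX3⟩ := hX
  obtain ⟨hS1, hS2, hS3⟩ := hS
  have hfin : FiniteDimensional ℚ_[ℓ] X.obj := X.property.1
  have hcomm : ∀ {A B : MixCat k ℓ} (f : A ⟶ B) (g : GG k) (x : A.obj),
      f.hom.hom (A.obj.ρ g x) = B.obj.ρ g (f.hom.hom x) := fun f g x =>
    Rep.hom_comm_apply f.hom g x
  -- the maps on elements
  let iL : W.obj →ₗ[ℚ_[ℓ]] X.obj := i.hom.hom.toLinearMap
  let mL : (W.obj × W.obj) →ₗ[ℚ_[ℓ]] X.obj := m.hom.hom.toLinearMap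
  let pL : X.obj →ₗ[ℚ_[ℓ]] E.obj := p.hom.hom.toLinearMap
  let aL : W.obj →ₗ[ℚ_[ℓ]] E.obj := a.hom.hom.toLinearMap
  have him' : ∀ v : W.obj, mL (v, 0) = iL v := by
    intro v
    have h : m.hom.hom (i'.hom.hom v) = i.hom.hom v :=
      congrArg (fun t : twObj W ⟶ X => t.hom.hom v) him
    rw [hi'] at h
    exact h
  have hmp' : ∀ v : W.obj × W.obj, pL (mL v) = aL v.2 := by
    intro v
    have h : p.hom.hom (m.hom.hom v) = a.hom.hom (p'.hom.hom v) :=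
      congrArg (fun t => t.hom.hom v) hmp
    rw [hp'] at h
    exact h
  have hW : ∀ σ : GG k, FrobAt 𝔓 1 σ → ∀ v : W.obj, W.obj.ρ σ v = v := by
    intro σ hσ v
    apply hS1
    have h1 := hcomm a σ v
    exact h1.trans (hE σ hσ _)
  obtain ⟨r, hr1, hr2⟩ := loc_retract (X := X.obj) (V := W.obj) (E := E.obj) X.property.2.1 iL
    (mL ∘ₗ LinearMap.inr ℚ_[ℓ] W.obj W.obj) pL aL κ hX1
    (fun g v => (hcomm i g v).symm)
    (fun g v => by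
      change X.obj.ρ g (mL (0, v)) = mL (0, W.obj.ρ g v) + (κ g : ℚ_[ℓ]) • iL (W.obj.ρ g v)
      have h1 := hcomm m g ((0, v) : W.obj × W.obj)
      have h2 : (kumRep W.obj κ hκ).ρ g ((0, v) : W.obj × W.obj) =
          (((κ g : ℚ_[ℓ]) • W.obj.ρ g v, W.obj.ρ g v) : W.obj × W.obj) := by
        rw [kumRep_apply]
        apply Prod.ext
        · change chi k ℓ g • W.obj.ρ g 0 + (κ g : ℚ_[ℓ]) • W.obj.ρ g v =
            (κ g : ℚ_[ℓ]) • W.obj.ρ g v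
          rw [map_zero, smul_zero, zero_add]
        · rfl
      have h3 : mL (((κ g : ℚ_[ℓ]) • W.obj.ρ g v, W.obj.ρ g v) : W.obj × W.obj) =
          mL (0, W.obj.ρ g v) + (κ g : ℚ_[ℓ]) • iL (W.obj.ρ g v) := by
        rw [← him', ← mL.map_smul, ← mL.map_add]
        congr 1
        apply Prod.ext
        · change (κ g : ℚ_[ℓ]) • W.obj.ρ g v = 0 + (κ g : ℚ_[ℓ]) • W.obj.ρ g v
          rw [zero_add]
        · change W.obj.ρ g v = W.obj.ρ g v + (κ g : ℚ_[ℓ]) • 0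
          rw [smul_zero, add_zero]
      rw [← h3]
      refine Eq.trans h1.symm ?_
      exact congrArg mL h2)
    (fun g x => hcomm p g x) hX2
    (fun x hx => hX3 x hx)
    (fun v => hmp' (0, v)) h𝔓 hℓ hW (fun σ hσ e => hE σ hσ e) hq hφ hτ hκτ
  exact ⟨r, hr1, hr2⟩

end Pool.Agent.EXR
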