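import Mathlib
import Pool.Agent.EXR.FIN1
import Pool.Agent.EXR.FSP

open CategoryTheory CategoryTheory.Limits CategoryTheory.Abelian NumberField

namespace Pool.Agent.EXR

open Pool.Agent.H12 Pool.Agent.FRC

variable {k : Type} [Field k] [NumberField k] {ℓ : ℕ} [Fact ℓ.Prime]

/-- an equivariant linear map as a morphism -/
theorem mor_of {V W : MixCat k ℓ} (f : V.obj →ₗ[ℚ_[ℓ]] W.obj)
    (hf : ∀ (g : GG k) v, f (V.obj.ρ g v) = W.obj.ρ g (f v)) :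
    ∃ F : V ⟶ W, ∀ v : V.obj, F.hom.hom v = f v := by
  let F0 : V.obj ⟶ W.obj := Rep.ofHom (f.intertwiningMap_of_isIntertwiningMap _ _ hf)
  exact ⟨ObjectProperty.homMk F0, fun v => rfl⟩

/-- an elementwise exact sequence as a short exact sequence -/
theorem ses_of {W E V : MixCat k ℓ} (i : W.obj →ₗ[ℚ_[ℓ]] E.obj) (p : E.obj →ₗ[ℚ_[ℓ]] V.obj)
    (hi : ∀ (g : GG k) v, i (W.obj.ρ g v) = E.obj.ρ g (i v))
    (hp : ∀ (g : GG k) v, p (E.obj.ρ g v) = V.obj.ρ g (p v))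
    (h1 : Function.Injective i) (h2 : Function.Surjective p)
    (h3 : ∀ e, p e = 0 ↔ ∃ w, i w = e) :
    ∃ (c : W ⟶ E) (d : E ⟶ V) (w : c ≫ d = 0), (ShortComplex.mk c d w).ShortExact ∧
      (∀ v : W.obj, c.hom.hom v = i v) ∧ ∀ v : E.obj, d.hom.hom v = p v := by
  obtain ⟨c, hc⟩ := mor_of i hi
  obtain ⟨d, hd⟩ := mor_of p hp
  have w : c ≫ d = 0 := by
    apply ObjectProperty.hom_ext
    apply Rep.hom_ext
    apply Representation.IntertwiningMap.ext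
    apply LinearMap.ext
    intro v
    change d.hom.hom (c.hom.hom v) = 0
    rw [hc, hd]
    exact (h3 _).2 ⟨v, rfl⟩
  refine ⟨c, d, w, (shortExact_iff _).2 ⟨?_, ?_, ?_⟩, hc, hd⟩
  · intro x y hxy
    have h : c.hom.hom x = c.hom.hom y := hxy
    rw [hc, hc] at h
    exact h1 h
  · intro y
    obtain ⟨x, hx⟩ := h2 y
    exact ⟨x, (hd x).trans hx⟩
  · intro y hy
    have h : d.hom.hom y = 0 := hy
    rw [hd] at h
    obtain ⟨x, hx⟩ := (h3 y).1 h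
    exact ⟨x, (hc x).trans hx⟩

theorem core_split {W E V : MixCat k ℓ} (i : W.obj →ₗ[ℚ_[ℓ]] E.obj) (p : E.obj →ₗ[ℚ_[ℓ]] V.obj)
    (hi : ∀ (g : GG k) v, i (W.obj.ρ g v) = E.obj.ρ g (i v))
    (hp : ∀ (g : GG k) v, p (E.obj.ρ g v) = V.obj.ρ g (p v))
    (h1 : Function.Injective i) (h2 : Function.Surjective p)
    (h3 : ∀ e, p e = 0 ↔ ∃ w, i w = e) (h : ∀ x : Ext.{1} V (EXK.twObj W) 2, x = 0)
    {𝔓 : Ideal (Zb k)} (h𝔓 : 𝔓.IsMaximal)
    (hℓ : (ℓ : Zb k) ∉ 𝔓) (hE : ∀ τ : GG k, FrobAt 𝔓 1 τ → ∀ v : E.obj, E.obj.ρ τ v = v)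
    {q : ℕ} (hq : q ≠ 0) {φ : GG k} (hφ : FrobAt 𝔓 q φ) :
    ∃ s : V.obj →ₗ[ℚ_[ℓ]] E.obj, (∀ v, p (s v) = v) ∧
      ∀ v, s (V.obj.ρ φ v) = E.obj.ρ φ (s v) := by
  obtain ⟨c, d, w, hS, -, hd⟩ := ses_of i p hi hp h1 h2 h3
  obtain ⟨r, hr1, hr2⟩ := frob_split_at hS h h𝔓 hℓ hE hq hφ
  obtain ⟨s, hs1, hs2⟩ := section_at hS φ r hr1 hr2
  exact ⟨s, fun v => (hd _).symm.trans (hs1 v), hs2⟩

theorem core_rigid {F : Type} [Field F] [Algebra ℚ_[ℓ] F] [FiniteDimensional ℚ_[ℓ] F]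
    {V E : MixCat k ℓ} (i : V.obj →ₗ[ℚ_[ℓ]] E.obj) (p : E.obj →ₗ[ℚ_[ℓ]] V.obj)
    (hi : ∀ (g : GG k) v, i (V.obj.ρ g v) = E.obj.ρ g (i v))
    (hp : ∀ (g : GG k) v, p (E.obj.ρ g v) = V.obj.ρ g (p v))
    (h1 : Function.Injective i) (h2 : Function.Surjective p)
    (h3 : ∀ e, p e = 0 ↔ ∃ w, i w = e) (h : ∀ x : Ext.{1} V (EXK.twObj V) 2, x = 0)
    (aV : F → V.obj →ₗ[ℚ_[ℓ]] V.obj) (aE : F → E.obj →ₗ[ℚ_[ℓ]] E.obj)
    (aV1 : ∀ x y v, aV (x + y) v = aV x v + aV y v) (aV2 : ∀ x y v, aV (x * y) v = aV x (aV y v))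
    (aV3 : ∀ (x : ℚ_[ℓ]) v, aV (algebraMap ℚ_[ℓ] F x) v = x • v)
    (aE1 : ∀ x y v, aE (x + y) v = aE x v + aE y v) (aE2 : ∀ x y v, aE (x * y) v = aE x (aE y v))
    (aE3 : ∀ (x : ℚ_[ℓ]) v, aE (algebraMap ℚ_[ℓ] F x) v = x • v)
    (hV : ∀ (x : F) (g : GG k) (v : V.obj), aV x (V.obj.ρ g v) = V.obj.ρ g (aV x v))
    (hE : ∀ (x : F) (g : GG k) (v : E.obj), aE x (E.obj.ρ g v) = E.obj.ρ g (aE x v))
    (hc : ∀ (x : F) (v : V.obj), i (aV x v) = aE x (i v))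
    (hd : ∀ (x : F) (v : E.obj), p (aE x v) = aV x (p v))
    (hirr : ∀ A : Submodule ℚ_[ℓ] V.obj, (∀ (g : GG k), ∀ v, v ∈ A → V.obj.ρ g v ∈ A) →
      (∀ (x : F), ∀ v, v ∈ A → aV x v ∈ A) → A = ⊥ ∨ A = ⊤)
    (hend : ∀ f : V.obj →ₗ[ℚ_[ℓ]] V.obj, (∀ (g : GG k) v, f (V.obj.ρ g v) = V.obj.ρ g (f v)) →
      (∀ (x : F) v, f (aV x v) = aV x (f v)) → ∃ x : F, ∀ v, f v = aV x v) :
    ∃ s : V.obj →ₗ[ℚ_[ℓ]] E.obj, (∀ v, p (s v) = v) ∧
      (∀ (g : GG k) v, s (V.obj.ρ g v) = E.obj.ρ g (s v)) ∧ ∀ (x : F) v, s (aV x v) = aE x (s v) := by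
  obtain ⟨c, d, w, hS, hc', hd'⟩ := ses_of i p hi hp h1 h2 h3
  let bV : F →ₐ[ℚ_[ℓ]] Module.End ℚ_[ℓ] V.obj :=
    { toFun := aV
      map_one' := LinearMap.ext fun v => by
        have := aV3 1 v
        rw [map_one, one_smul] at this
        exact this
      map_mul' := fun x y => LinearMap.ext fun v => aV2 x y v
      map_zero' := LinearMap.ext fun v => by
        have := aV3 0 v
        rw [map_zero, zero_smul] at this
        exact this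
      map_add' := fun x y => LinearMap.ext fun v => aV1 x y v
      commutes' := fun x => LinearMap.ext fun v => aV3 x v }
  let bE : F →ₐ[ℚ_[ℓ]] Module.End ℚ_[ℓ] E.obj :=
    { toFun := aE
      map_one' := LinearMap.ext fun v => by
        have := aE3 1 v
        rw [map_one, one_smul] at this
        exact this
      map_mul' := fun x y => LinearMap.ext fun v => aE2 x y v
      map_zero' := LinearMap.ext fun v => by
        have := aE3 0 v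
        rw [map_zero, zero_smul] at this
        exact this
      map_add' := fun x y => LinearMap.ext fun v => aE1 x y v
      commutes' := fun x => LinearMap.ext fun v => aE3 x v }
  obtain ⟨s, hs1, hs2⟩ := rigid_F c d w hS h bV bE hV hE
    (fun x v => by rw [hc', hc']; exact hc x v) (fun x v => by rw [hd', hd']; exact hd x v)
    hirr hend
  refine ⟨s.hom.hom.toLinearMap, fun v => ?_, fun g v => hom_comm' s g v, fun x v => hs2 x v⟩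
  have h4 : d.hom.hom (s.hom.hom v) = v := congrArg (fun t => t.hom.hom v) hs1
  rw [hd'] at h4
  exact h4

end Pool.Agent.EXR
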