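import Mathlib
import Pool.Agent.FRC.SC
import Pool.Agent.H12.Cyc

open CategoryTheory NumberField

namespace Pool.Agent.EXR

noncomputable section

open Pool.Agent.H12 Pool.Agent.FRS

variable {k : Type} [Field k] {ℓ : ℕ} [Fact ℓ.Prime]

/-- The linear map `f` commutes with `G_k`. -/
def Eqv {V W : RepG k ℓ} (f : Lin V W) : Prop :=
  ∀ (g : GG k) (v : Vec V), ap f (act V g v) = act W g (ap f v)

/-- `0 → W → E → V → 0` (maps `i`, `p`) is an exact sequence of representations. -/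
def Ses {W E V : RepG k ℓ} (i : Lin W E) (p : Lin E V) : Prop :=
  Eqv i ∧ Eqv p ∧ Function.Injective (ap i) ∧ Function.Surjective (ap p) ∧
    ∀ e : Vec E, ap p e = 0 ↔ ∃ w : Vec W, ap i w = e

/-- Multiplication by a scalar. -/
def scal (V : RepG k ℓ) (c : ℚ_[ℓ]) (v : Vec V) : Vec V := c • v

/-- The `ℓ`-adic cyclotomic character. -/
def chr (ℓ : ℕ) [Fact ℓ.Prime] (g : GG k) : ℚ_[ℓ] := algebraMap ℤ_[ℓ] ℚ_[ℓ] (cyc k ℓ g : ℤ_[ℓ])

/-- `W₁` is a Tate twist `W(1)` of `W`. -/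
def Tw (W W₁ : RepG k ℓ) : Prop :=
  ∃ e : Lin W W₁, Function.Bijective (ap e) ∧ ∀ (g : GG k) (v : Vec W),
    act W₁ g (ap e v) = ap e (scal W (chr ℓ g) (act W g v))

/-- The prime `𝔓` does not contain `ℓ` and the inertia group of `𝔓` acts trivially on `V`. -/
def Good (V : RepG k ℓ) (𝔓 : Idl k) : Prop :=
  IsMax 𝔓 ∧ ¬ InP 𝔓 (ℓ : Zb k) ∧ ∀ τ : GG k, FrobAt 𝔓 1 τ → ∀ v : Vec V, act V τ v = v

/-- `p : E → V` has a linear section that commutes with `σ`. -/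
def SplitsAt {E V : RepG k ℓ} (p : Lin E V) (σ : GG k) : Prop :=
  ∃ s : Lin V E, (∀ v : Vec V, ap p (ap s v) = v) ∧
    ∀ v : Vec V, ap s (act V σ v) = act E σ (ap s v)

end

end Pool.Agent.EXR
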