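import Mathlib
import Pool.Agent.EXR.STA

open CategoryTheory NumberField

namespace Pool.Agent.EXR

noncomputable section

open Pool.Agent.H12 Pool.Agent.FRS

variable {k : Type} [Field k] {ℓ : ℕ} [Fact ℓ.Prime]

/-- An action of the extension field `F` of `ℚ_ℓ` on `V` that commutes with `G_k`. -/
structure Coef (F : Type) [Field F] [Algebra ℚ_[ℓ] F] (V : RepG k ℓ) where
  /-- the operator of `c` -/
  sc : F → Lin V V
  add : ∀ (c c' : F) (v : Vec V), ap (sc (c + c')) v = ap (sc c) v + ap (sc c') v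
  mul : ∀ (c c' : F) (v : Vec V), ap (sc (c * c')) v = ap (sc c) (ap (sc c') v)
  alg : ∀ (c : ℚ_[ℓ]) (v : Vec V), ap (sc (algebraMap ℚ_[ℓ] F c)) v = scal V c v
  eqv : ∀ c : F, Eqv (sc c)

variable {F : Type} [Field F] [Algebra ℚ_[ℓ] F]

/-- The linear map `f` commutes with `F`. -/
def FLin {V W : RepG k ℓ} (a : Coef F V) (b : Coef F W) (f : Lin V W) : Prop :=
  ∀ (c : F) (v : Vec V), ap f (ap (a.sc c) v) = ap (b.sc c) (ap f v)

/-- `V` is absolutely irreducible over `F`: `V ≠ 0`, no subspaces stable under `G_k` and `F` except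
`0` and `V`, and every linear map that commutes with `G_k` and `F` is an element of `F`. -/
def AbsIrr {V : RepG k ℓ} (a : Coef F V) : Prop :=
  (∃ v : Vec V, v ≠ 0) ∧
  (∀ A : Sub V, Stable A → (∀ (c : F) (v : Vec V), InS A v → InS A (ap (a.sc c) v)) →
    A = zeroS V ∨ A = allS V) ∧
  ∀ f : Lin V V, Eqv f → FLin a a f → ∃ c : F, ∀ v : Vec V, ap f v = ap (a.sc c) v

end

end Pool.Agent.EXR
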