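import Mathlib
import Pool.Agent.EXK.ASM

open CategoryTheory CategoryTheory.Limits CategoryTheory.Abelian Polynomial NumberField

namespace Pool.Agent.EXR

open Pool.Agent.H12 Pool.Agent.FRC

variable {k : Type} [Field k] [NumberField k] {ℓ : ℕ} [Fact ℓ.Prime]

/-- If `W₁` is a twist `W(1)` (elementwise) then `Ext (V, W(1))` is zero when
`Ext (V, W₁)` is. -/
theorem ext_twist {V W W₁ : MixCat k ℓ} (e : W.obj ≃ₗ[ℚ_[ℓ]] W₁.obj)
    (he : ∀ (g : GG k) (v : W.obj), W₁.obj.ρ g (e v) = chi k ℓ g • e (W.obj.ρ g v)) (n : ℕ)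
    (h : Subsingleton (Ext.{1} V W₁ n)) (x : Ext.{1} V (EXK.twObj W) n) : x = 0 := by
  let e1 : W.obj →ₗ[ℚ_[ℓ]] W₁.obj := e.toLinearMap
  let e2 : W₁.obj →ₗ[ℚ_[ℓ]] W.obj := e.symm.toLinearMap
  let f0 : (EXK.twObj W).obj ⟶ W₁.obj := Rep.ofHom
    (e1.intertwiningMap_of_isIntertwiningMap (EXK.twRep W.obj).ρ W₁.obj.ρ (fun g v => by
      rw [EXK.twRep_apply]
      change e (chi k ℓ g • W.obj.ρ g v) = W₁.obj.ρ g (e v)
      rw [he, map_smul]))
  let g0 : W₁.obj ⟶ (EXK.twObj W).obj := Rep.ofHom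
    (e2.intertwiningMap_of_isIntertwiningMap W₁.obj.ρ (EXK.twRep W.obj).ρ (fun g v => by
      change e.symm (W₁.obj.ρ g v) = chi k ℓ g • W.obj.ρ g (e.symm v)
      apply e.injective
      rw [LinearEquiv.apply_symm_apply, map_smul, ← he, LinearEquiv.apply_symm_apply]))
  let f : EXK.twObj W ⟶ W₁ := ObjectProperty.homMk f0
  let g : W₁ ⟶ EXK.twObj W := ObjectProperty.homMk g0
  have hfg : f ≫ g = 𝟙 _ := by
    apply ObjectProperty.hom_ext
    apply Rep.hom_ext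
    apply Representation.IntertwiningMap.ext
    apply LinearMap.ext
    intro v
    exact e.symm_apply_apply v
  have h1 : x = (x.comp (Ext.mk₀ f) (add_zero n)).comp (Ext.mk₀ g) (add_zero n) := by
    rw [Ext.comp_assoc_of_third_deg_zero, Ext.mk₀_comp_mk₀, hfg, Ext.comp_mk₀_id]
  rw [h1, Subsingleton.elim (x.comp (Ext.mk₀ f) (add_zero n)) 0, Ext.zero_comp]

end Pool.Agent.EXR
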