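import Mathlib
import Pool.Agent.EXR.STB
import Pool.Agent.EXR.TWI
import Pool.Agent.EXR.FIN0

open CategoryTheory CategoryTheory.Limits CategoryTheory.Abelian NumberField

namespace Pool.Agent.EXR

open Pool.Agent.H12 Pool.Agent.FRS

variable {k : Type} [Field k] [NumberField k] {ℓ : ℕ} [Fact ℓ.Prime]

theorem fin_twist (W : Cat k ℓ) : ∃ W₁ : Cat k ℓ, Tw (toRep W) (toRep W₁) := by
  let W' : FRC.MixCat k ℓ := W
  let W₁ : FRC.MixCat k ℓ := EXK.twObj W'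
  refine ⟨(W₁ : FRC.MixCat k ℓ), ?_⟩
  refine ⟨(LinearMap.id : Vec (toRep W) →ₗ[ℚ_[ℓ]] Vec (toRep W)), Function.bijective_id, ?_⟩
  intro g v
  rfl

/-- the comparison of the twist with the concrete one -/
theorem fin_ext {V W W₁ : Cat k ℓ} (h : Tw (toRep W) (toRep W₁)) (n : ℕ)
    (h2 : ∀ x : Ext.{1} V W₁ n, x = 0) :
    ∀ x : Ext.{1} (V : FRC.MixCat k ℓ) (EXK.twObj (W : FRC.MixCat k ℓ)) n, x = 0 := by
  obtain ⟨e, hb, he⟩ := h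
  let e1 : Vec (toRep W) →ₗ[ℚ_[ℓ]] Vec (toRep W₁) := e
  let e0 : Vec (toRep W) ≃ₗ[ℚ_[ℓ]] Vec (toRep W₁) := LinearEquiv.ofBijective e1 hb
  have he' : ∀ (g : GG k) (v : Vec (toRep W)), act (toRep W₁) g (e0 v) =
      chi k ℓ g • e0 (act (toRep W) g v) := by
    intro g v
    have h1 := he g v
    have h3 : e1 (chi k ℓ g • act (toRep W) g v) = chi k ℓ g • e1 (act (toRep W) g v) :=
      e1.map_smul _ _
    exact h1.trans h3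
  exact ext_twist (V := (V : FRC.MixCat k ℓ)) (W := (W : FRC.MixCat k ℓ))
    (W₁ := (W₁ : FRC.MixCat k ℓ)) e0 he' n ⟨fun x y => (h2 x).trans (h2 y).symm⟩

theorem fin_split {W E V W₁ : Cat k ℓ} (i : Lin (toRep W) (toRep E)) (p : Lin (toRep E) (toRep V))
    (hS : Ses i p) (hW₁ : Tw (toRep W) (toRep W₁)) (h2 : ∀ x : Ext.{1} V W₁ 2, x = 0)
    {𝔓 : Idl k} (h𝔓 : Good (toRep E) 𝔓) {q : ℕ} (hq : q ≠ 0) {σ : GG k} (hσ : FrobAt 𝔓 q σ) :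
    SplitsAt p σ := by
  obtain ⟨h3, h4, h5, h6, h7⟩ := hS
  obtain ⟨h8, h9, h10⟩ := h𝔓
  exact core_split (W := (W : FRC.MixCat k ℓ)) (E := (E : FRC.MixCat k ℓ))
    (V := (V : FRC.MixCat k ℓ)) i p h3 h4 h5 h6 h7 (fin_ext hW₁ 2 h2) (𝔓 := 𝔓) h8 h9 h10 hq hσ

theorem fin_rigid {F : Type} [Field F] [Algebra ℚ_[ℓ] F] [FiniteDimensional ℚ_[ℓ] F]
    {V E V₁ : Cat k ℓ} (i : Lin (toRep V) (toRep E)) (p : Lin (toRep E) (toRep V))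
    (hS : Ses i p) (hV₁ : Tw (toRep V) (toRep V₁)) (h2 : ∀ x : Ext.{1} V V₁ 2, x = 0)
    (a : Coef F (toRep V)) (ha : AbsIrr a) (b : Coef F (toRep E)) (hi : FLin a b i)
    (hp : FLin b a p) :
    ∃ s : Lin (toRep V) (toRep E), Eqv s ∧ FLin a b s ∧ ∀ v, ap p (ap s v) = v := by
  obtain ⟨h3, h4, h5, h6, h7⟩ := hS
  obtain ⟨-, hirr, hend⟩ := ha
  obtain ⟨s, hs1, hs2, hs3⟩ := core_rigid (F := F) (V := (V : FRC.MixCat k ℓ))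
    (E := (E : FRC.MixCat k ℓ)) i p h3 h4 h5 h6 h7 (fin_ext hV₁ 2 h2) a.sc b.sc a.add a.mul a.alg
    b.add b.mul b.alg a.eqv b.eqv hi hp hirr hend
  exact ⟨s, hs2, hs3, hs1⟩

end Pool.Agent.EXR
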