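import Mathlib

namespace Pool.Agent.EXR

private theorem seqa_pow {R : Type*} [CommRing R] (x : R) (m : ℕ) :
    ∃ t : R, (1 + x) ^ m = 1 + m * x + x ^ 2 * t := by
  induction m with
  | zero => exact ⟨0, by simp⟩
  | succ m ih =>
    obtain ⟨t, ht⟩ := ih
    refine ⟨t * (1 + x) + m, ?_⟩
    rw [pow_succ, ht]
    push_cast
    ring

private theorem seqa_Q (ℓ : ℕ) (Q : ℤ) (hQ : ∃ s : ℤ, Q = 1 + (ℓ : ℤ) ^ 3 + (ℓ : ℤ) ^ 4 * s) (n : ℕ) :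
    ∃ t : ℤ, Q ^ ℓ ^ n = 1 + (ℓ : ℤ) ^ (3 + n) * t ∧ (ℓ : ℤ) ∣ t - 1 := by
  induction n with
  | zero =>
    obtain ⟨s, hs⟩ := hQ
    refine ⟨1 + ℓ * s, ?_, ⟨s, by ring⟩⟩
    rw [pow_zero, pow_one, hs]
    ring
  | succ n ih =>
    obtain ⟨t, ht, u, hu⟩ := ih
    obtain ⟨v, hv⟩ := seqa_pow ((ℓ : ℤ) ^ (3 + n) * t) ℓ
    refine ⟨t + (ℓ : ℤ) ^ (2 + n) * t ^ 2 * v, ?_, ⟨u + (ℓ : ℤ) ^ (1 + n) * t ^ 2 * v, ?_⟩⟩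
    · rw [pow_succ ℓ n, pow_mul, ht, hv]
      ring
    · have h1 : t + (ℓ : ℤ) ^ (2 + n) * t ^ 2 * v - 1 = (t - 1) + (ℓ : ℤ) ^ (2 + n) * t ^ 2 * v := by
        ring
      rw [h1, hu]
      ring

private theorem seqa_step (ℓ : ℕ) (hℓ : 0 < ℓ) (P Q : ℤ)
    (hQ : ∃ s : ℤ, Q = 1 + (ℓ : ℤ) ^ 3 + (ℓ : ℤ) ^ 4 * s) (n b : ℕ)
    (h : (ℓ : ℤ) ^ (3 + n) ∣ P * Q ^ b - 1) :
    ∃ d : ℕ, (ℓ : ℤ) ^ (3 + (n + 1)) ∣ P * Q ^ (b + ℓ ^ n * d) - 1 := by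
  obtain ⟨s, hs⟩ := h
  obtain ⟨t, ht, u, hu⟩ := seqa_Q ℓ Q hQ n
  have hℓ0 : (0 : ℤ) < ℓ := by exact_mod_cast hℓ
  have hd0 : 0 ≤ (-s) % (ℓ : ℤ) := Int.emod_nonneg _ hℓ0.ne'
  obtain ⟨d, hd⟩ := Int.eq_ofNat_of_zero_le hd0
  have hd' : (d : ℤ) = (-s) % (ℓ : ℤ) := hd.symm
  refine ⟨d, ?_⟩
  have h1 : (ℓ : ℤ) ∣ s + d := by
    rw [hd']
    have := Int.emod_add_mul_ediv (-s) (ℓ : ℤ)
    refine ⟨-((-s) / (ℓ : ℤ)), ?_⟩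
    linarith
  obtain ⟨w, hw⟩ := h1
  obtain ⟨v, hv⟩ := seqa_pow ((ℓ : ℤ) ^ (3 + n) * t) d
  have h2 : P * Q ^ b = 1 + (ℓ : ℤ) ^ (3 + n) * s := by linarith
  have h3 : P * Q ^ (b + ℓ ^ n * d) = (1 + (ℓ : ℤ) ^ (3 + n) * s) *
      (1 + d * ((ℓ : ℤ) ^ (3 + n) * t) + ((ℓ : ℤ) ^ (3 + n) * t) ^ 2 * v) := by
    rw [pow_add, pow_mul, ht, hv, ← mul_assoc, h2]
  have ht1 : t = 1 + ℓ * u := by linarith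
  have hs1 : s = ℓ * w - d := by linarith
  refine ⟨w + d * u + (ℓ : ℤ) ^ (2 + n) * (s * d * t + t ^ 2 * v + (ℓ : ℤ) ^ (3 + n) * s * t ^ 2 * v), ?_⟩
  rw [h3]
  have h4 : (ℓ : ℤ) ^ (3 + (n + 1)) = (ℓ : ℤ) ^ (3 + n) * ℓ := by
    rw [← add_assoc, pow_succ]
  have h5 : (ℓ : ℤ) * (ℓ : ℤ) ^ (2 + n) = (ℓ : ℤ) ^ (3 + n) := by
    rw [← pow_succ']
    congr 1
    omega
  have h6 : (s + d * t : ℤ) = ℓ * (w + d * u) := by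
    rw [ht1, hs1]
    ring
  calc (1 + (ℓ : ℤ) ^ (3 + n) * s) *
      (1 + d * ((ℓ : ℤ) ^ (3 + n) * t) + ((ℓ : ℤ) ^ (3 + n) * t) ^ 2 * v) - 1
      = (ℓ : ℤ) ^ (3 + n) * ((s + d * t) + (ℓ : ℤ) ^ (3 + n) *
        (s * d * t + t ^ 2 * v + (ℓ : ℤ) ^ (3 + n) * s * t ^ 2 * v)) := by ring
    _ = (ℓ : ℤ) ^ (3 + n) * (ℓ * (w + d * u) + (ℓ * (ℓ : ℤ) ^ (2 + n)) *
        (s * d * t + t ^ 2 * v + (ℓ : ℤ) ^ (3 + n) * s * t ^ 2 * v)) := by rw [h5, h6]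
    _ = (ℓ : ℤ) ^ (3 + (n + 1)) * (w + d * u + (ℓ : ℤ) ^ (2 + n) *
        (s * d * t + t ^ 2 * v + (ℓ : ℤ) ^ (3 + n) * s * t ^ 2 * v)) := by
        rw [h4]
        ring

/-- Module SEQA. Digits. Let `ℓ` be a prime, `P ≡ 1` modulo `ℓ ^ 3` and `Q ≡ 1 + ℓ ^ 3` modulo
`ℓ ^ 4`. Then there are exponents `B n` with `B (n + 1) ≡ B n` modulo `ℓ ^ n` and
`P * Q ^ B n ≡ 1` modulo `ℓ ^ (3 + n)`.

Proof. By induction on `n`, `Q ^ (ℓ ^ n) ≡ 1 + ℓ ^ (3 + n)` modulo `ℓ ^ (4 + n)`: if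
`Q ^ (ℓ ^ n) = 1 + ℓ ^ (3 + n) * t`, `t ≡ 1` modulo `ℓ`, then by the binomial theorem its `ℓ`-th
power is `1 + ℓ ^ (4 + n) * t` modulo `ℓ ^ (5 + n)` (all terms with `i ≥ 2` are divisible by
`ℓ ^ (2 * (3 + n))`; `Int.ModEq`, or `add_pow_two`-style: `(1 + x) ^ m ≡ 1 + m x` modulo `x ^ 2`,
e.g. `Commute.add_pow`, `one_add_mul_le`-free: prove by induction on `m`). Choose digits:
`B 0 = 0`; if `P * Q ^ B n = 1 + ℓ ^ (3 + n) * t`, take `d` with `d + t ≡ 0` modulo `ℓ` and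
`B (n + 1) = B n + ℓ ^ n * d`. Work with integers and `Int.ModEq` or divisibility in `ℤ`. -/
theorem exists_digits (ℓ : ℕ) (hℓ : ℓ.Prime) (P Q : ℕ) (hP : P ≡ 1 [MOD ℓ ^ 3])
    (hQ : Q ≡ 1 + ℓ ^ 3 [MOD ℓ ^ 4]) :
    ∃ B : ℕ → ℕ, (∀ n, ∃ d, B (n + 1) = B n + ℓ ^ n * d) ∧
      ∀ n, P * Q ^ B n ≡ 1 [MOD ℓ ^ (3 + n)] := by
  have hiff : ∀ n b : ℕ, (P * Q ^ b ≡ 1 [MOD ℓ ^ (3 + n)]) ↔
      (ℓ : ℤ) ^ (3 + n) ∣ (P : ℤ) * (Q : ℤ) ^ b - 1 := by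
    intro n b
    constructor
    · intro h
      have h1 := (Nat.modEq_iff_dvd.1 h.symm)
      push_cast at h1
      exact h1
    · intro h
      have h1 : ((ℓ ^ (3 + n) : ℕ) : ℤ) ∣ ((P * Q ^ b : ℕ) : ℤ) - ((1 : ℕ) : ℤ) := by
        push_cast
        exact h
      exact (Nat.modEq_iff_dvd.2 h1).symm
  have hQ' : ∃ s : ℤ, (Q : ℤ) = 1 + (ℓ : ℤ) ^ 3 + (ℓ : ℤ) ^ 4 * s := by
    obtain ⟨s, hs⟩ := Nat.modEq_iff_dvd.1 hQ.symm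
    push_cast at hs
    exact ⟨s, by linarith⟩
  have hstep : ∀ n b : ℕ, (P * Q ^ b ≡ 1 [MOD ℓ ^ (3 + n)]) →
      ∃ d : ℕ, P * Q ^ (b + ℓ ^ n * d) ≡ 1 [MOD ℓ ^ (3 + (n + 1))] := by
    intro n b h
    obtain ⟨d, hd⟩ := seqa_step ℓ hℓ.pos P Q hQ' n b ((hiff n b).1 h)
    exact ⟨d, (hiff (n + 1) _).2 hd⟩
  have h0 : P * Q ^ 0 ≡ 1 [MOD ℓ ^ (3 + 0)] := by
    rw [pow_zero, mul_one]
    exact hP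
  choose! d hd using hstep
  let B : ∀ n : ℕ, ℕ := fun n => Nat.rec 0 (fun n b => b + ℓ ^ n * d n b) n
  have hB : ∀ n, P * Q ^ B n ≡ 1 [MOD ℓ ^ (3 + n)] := by
    intro n
    induction n with
    | zero => exact h0
    | succ n ih => exact hd n (B n) ih
  exact ⟨B, fun n => ⟨d n (B n), rfl⟩, hB⟩

end Pool.Agent.EXR
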