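import Mathlib

open Polynomial

namespace Pool.Agent.EXR

/-- Module SEQB. An `ℓ`-adic integer `u ≡ 1` modulo `ℓ ^ (2 * n + 1)` is the `ℓ ^ n`-th power of a
unit. Proof: copy `Pool.Agent.H12.exists_root_of_one_mod` (`Pool/Agent/H12/Seq.lean`), with
`hensels_lemma` for `X ^ (ℓ ^ n) - C u` at `1`, where the derivative is `ℓ ^ n`. -/
theorem exists_root_pow {ℓ : ℕ} [Fact ℓ.Prime] (n : ℕ) (u : ℤ_[ℓ])
    (hu : u - 1 ∈ (Ideal.span {(ℓ : ℤ_[ℓ]) ^ (2 * n + 1)} : Ideal ℤ_[ℓ])) :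
    ∃ w : ℤ_[ℓ]ˣ, (w : ℤ_[ℓ]) ^ ℓ ^ n = u := by
  have hp : (1 : ℝ) < ℓ := by exact_mod_cast (Fact.out : ℓ.Prime).one_lt
  have hnorm : ‖u - 1‖ ≤ (ℓ : ℝ) ^ (-(2 * n + 1 : ℕ) : ℤ) :=
    (PadicInt.norm_le_pow_iff_mem_span_pow _ (2 * n + 1)).mpr hu
  have h := hensels_lemma (p := ℓ) (F := (X ^ (ℓ ^ n) - C u : ℤ_[ℓ][X])) (a := (1 : ℤ_[ℓ])) (by
    simp only [map_sub, map_pow, aeval_X, one_pow, aeval_C, Algebra.algebraMap_self,
      RingHom.id_apply, derivative_X_pow, derivative_C, sub_zero, map_mul,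
      map_natCast, mul_one]
    rw [norm_sub_rev]
    push_cast
    rw [norm_pow, PadicInt.norm_p]
    refine lt_of_le_of_lt hnorm ?_
    rw [← zpow_neg_one, ← zpow_natCast, ← zpow_natCast, ← zpow_mul, ← zpow_mul]
    refine zpow_lt_zpow_right₀ hp ?_
    push_cast
    linarith)
  obtain ⟨z, hz, -⟩ := h
  simp only [map_sub, map_pow, aeval_X, aeval_C, Algebra.algebraMap_self, RingHom.id_apply,
    sub_eq_zero] at hz
  have hu1 : IsUnit u := by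
    rw [PadicInt.isUnit_iff]
    have h1 : ‖u - 1‖ < 1 := by
      refine lt_of_le_of_lt hnorm (zpow_lt_one_of_neg₀ hp ?_)
      push_cast
      linarith
    have h2 : u = (u - 1) + 1 := by ring
    rw [h2]
    have h3 : ‖(1 : ℤ_[ℓ])‖ = 1 := norm_one
    rw [PadicInt.norm_add_eq_max_of_ne (by rw [h3]; exact h1.ne), h3, max_eq_right h1.le]
  have hz1 : IsUnit z := by
    rw [← hz] at hu1
    exact (isUnit_pow_iff (pow_ne_zero n (Fact.out : ℓ.Prime).ne_zero)).mp hu1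
  exact ⟨hz1.unit, by simpa using hz⟩

end Pool.Agent.EXR
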