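import Mathlib
import Pool.Agent.EXR.SEQA
import Pool.Agent.EXR.SEQB

namespace Pool.Agent.EXR

private theorem seq_cast {ℓ : ℕ} [Fact ℓ.Prime] {a j i : ℕ} (h : a ≡ 1 [MOD ℓ ^ j]) (hij : i ≤ j) :
    ((a : ℕ) : ℤ_[ℓ]) - 1 ∈ (Ideal.span {(ℓ : ℤ_[ℓ]) ^ i} : Ideal ℤ_[ℓ]) := by
  rw [Ideal.mem_span_singleton]
  obtain ⟨s, hs⟩ := Nat.modEq_iff_dvd.1 h.symm
  have h1 := congrArg (Int.cast : ℤ → ℤ_[ℓ]) hs
  push_cast at h1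
  rw [h1]
  exact (pow_dvd_pow _ hij).mul_right _

/-- Module SEQ. A product `p ^ e * Q ^ b n` (with `b (n + 1) ≡ b n` modulo `ℓ ^ n`) that is an
`ℓ ^ n`-th power in `ℤ_ℓˣ`.

Proof. Let `e = φ (ℓ ^ 3)`, so `P = p ^ e ≡ 1` modulo `ℓ ^ 3` (`Nat.ModEq.pow_totient`). Let
`Q = 1 + ℓ ^ 3` if `p` does not divide it and `Q = 1 + ℓ ^ 3 * (1 + ℓ)` otherwise (then `p` does not
divide it, because `p ∣ ℓ ^ 4` is impossible). Take `B` from `exists_digits` and put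
`b n = B (2 * n)`, so `P * Q ^ b n ≡ 1` modulo `ℓ ^ (2 * n + 3)` and `ℓ ^ n ∣ b (n + 1) - b n`
(`b (n + 1) = b n + ℓ ^ n * d`). Put `A 0 = 1`, `A n = p ^ e * Q ^ b n` for `n ≥ 1`, `m 0 = A 1`
and `m n = Q ^ d n` for `n ≥ 1`. The roots are given by `exists_root_pow` (a congruence of natural
numbers modulo `ℓ ^ j` gives membership in the ideal, see `cast_mod` in
`Pool/Agent/H12/Seq.lean`). -/
theorem exists_seqP (ℓ : ℕ) [Fact ℓ.Prime] (p : ℕ) (hp : p.Prime) (hne : p ≠ ℓ) :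
    ∃ (e Q : ℕ) (b m A : ℕ → ℕ), 0 < e ∧ 0 < Q ∧ ¬ p ∣ Q ∧ (∀ i, 0 < m i) ∧ A 0 = 1 ∧
      (∀ i, A (i + 1) = A i * m i ^ ℓ ^ i) ∧ (∀ n, 1 ≤ n → A n = p ^ e * Q ^ b n) ∧
      ∀ i, ∃ y : ℤ_[ℓ]ˣ, (y : ℤ_[ℓ]) ^ ℓ ^ i = A i := by
  have hℓ : ℓ.Prime := Fact.out
  have hcop : Nat.Coprime p ℓ := (Nat.coprime_primes hp hℓ).2 hne
  have hP : p ^ Nat.totient (ℓ ^ 3) ≡ 1 [MOD ℓ ^ 3] :=
    Nat.ModEq.pow_totient (hcop.pow_right 3)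
  have he : 0 < Nat.totient (ℓ ^ 3) := Nat.totient_pos.2 (pow_pos hℓ.pos 3)
  obtain ⟨Q, hQ0, hpQ, hQ⟩ : ∃ Q : ℕ, 0 < Q ∧ ¬ p ∣ Q ∧ Q ≡ 1 + ℓ ^ 3 [MOD ℓ ^ 4] := by
    by_cases h : p ∣ 1 + ℓ ^ 3
    · refine ⟨1 + ℓ ^ 3 + ℓ ^ 4, by positivity, ?_, ?_⟩
      · intro h2
        have h3 : p ∣ ℓ ^ 4 := (Nat.dvd_add_right h).1 h2
        have h4 := hp.dvd_of_dvd_pow h3
        exact hne ((Nat.prime_dvd_prime_iff_eq hp hℓ).1 h4)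
      · unfold Nat.ModEq
        rw [Nat.add_mod_right]
    · exact ⟨1 + ℓ ^ 3, by positivity, h, rfl⟩
  obtain ⟨B, hB1, hB2⟩ := exists_digits ℓ hℓ (p ^ Nat.totient (ℓ ^ 3)) Q hP hQ
  have hd : ∀ n, ∃ d, B (2 * (n + 1)) = B (2 * n) + ℓ ^ n * d := by
    intro n
    obtain ⟨d1, h1⟩ := hB1 (2 * n)
    obtain ⟨d2, h2⟩ := hB1 (2 * n + 1)
    refine ⟨ℓ ^ n * d1 + ℓ ^ (n + 1) * d2, ?_⟩
    have h3 : 2 * (n + 1) = 2 * n + 1 + 1 := by ring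
    rw [h3, h2, h1]
    ring
  choose d hd using hd
  set e := Nat.totient (ℓ ^ 3) with hedef
  refine ⟨e, Q, fun n => B (2 * n), fun n => if n = 0 then p ^ e * Q ^ B 2 else Q ^ d n,
    fun n => if n = 0 then 1 else p ^ e * Q ^ B (2 * n), he, hQ0, hpQ, ?_, ?_, ?_, ?_, ?_⟩
  · intro i
    dsimp only
    split_ifs
    · exact Nat.mul_pos (pow_pos hp.pos _) (pow_pos hQ0 _)
    · exact pow_pos hQ0 _
  · simp
  · intro i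
    dsimp only
    rw [if_neg (Nat.succ_ne_zero i)]
    by_cases hi : i = 0
    · subst hi
      rw [if_pos rfl, if_pos rfl, pow_zero, pow_one, one_mul]
    · rw [if_neg hi, if_neg hi, hd i, pow_add, ← pow_mul, mul_comm (d i), mul_assoc]
  · intro n hn
    dsimp only
    rw [if_neg (by omega)]
  · intro i
    dsimp only
    by_cases hi : i = 0
    · subst hi
      exact ⟨1, by simp⟩
    · rw [if_neg hi]
      refine exists_root_pow i _ ?_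
      exact seq_cast (hB2 (2 * i)) (by omega)

end Pool.Agent.EXR
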