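import Mathlib
import Pool.Agent.EXR.Defs
import Pool.Agent.EXR.SEQ
import Pool.Agent.H12.Kummer
import Pool.Agent.H12.LocalEll

open CategoryTheory Polynomial NumberField

namespace Pool.Agent.EXR

open Pool.Agent.H12 Pool.Agent.FRC

/-- Module KUM. Kummer data exist. Proof: `exists_seqP`, then `Pool.Agent.H12.exists_zeta`,
`exists_roots`, `exists_kummer` (as in `Pool.Agent.FRC.exists_kumData`) and
`Pool.Agent.H12.local_split`. -/
theorem exists_kumP (k : Type) [Field k] [NumberField k] (ℓ : ℕ) [Fact ℓ.Prime] (p : ℕ)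
    (hp : p.Prime) (hne : p ≠ ℓ) : Nonempty (KumP k ℓ p) := by
  have hpr : ℓ.Prime := Fact.out
  obtain ⟨e, Q, b, m, A, he, hQ, hpQ, hm, hA0, hAs, hAn, hAloc⟩ := exists_seqP ℓ p hp hne
  obtain ⟨ζ, hζ, hζs⟩ := exists_zeta k ℓ
  obtain ⟨u, hu, hup⟩ := exists_roots k ℓ m A hA0 hAs
  have hApos : ∀ i, 0 < A i := by
    intro i
    induction i with
    | zero => rw [hA0]; exact Nat.one_pos
    | succ i ih => rw [hAs]; exact Nat.mul_pos ih (pow_pos (hm i) _)
  obtain ⟨κ, h1, h2, h3⟩ := exists_kummer ζ hζ hζs m A hm hApos u hu hup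
  exact ⟨{ e := e
           Q := Q
           b := b
           ζ := ζ
           u := u
           κ := κ
           he := he
           hQ := hQ
           hpQ := hpQ
           prim := hζ
           u_pow := fun n hn => by rw [hup, hAn n hn]
           spec := h1
           cocycle := h2
           cont := h3
           split := fun ι => local_split ζ hζ A hApos hAloc u hup κ h1 ι }⟩

end Pool.Agent.EXR
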