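import Mathlib
import Pool.Agent.FRC.FRB3
import Pool.Agent.EXK.IL

open Polynomial NumberField

namespace Pool.Agent.EXR

open Pool.Agent.H12 Pool.Agent.FRC

/-- Module LFT. Inertia elements of a finite Galois layer `L` lift to inertia elements.

Proof. Let `G' = L.fixingSubgroup` act on `Zb k`; it is profinite (closed subgroup) and the
invariants are the integers of `L` (`InfiniteGalois`, see `FRB3_inv` in `Pool/Agent/FRC/FRB3.lean`
for `L = k`; all instances needed are produced there in the same way). Let `P = 𝔓 ∩ 𝓞 L`.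
(1) `g` stabilises `P`, since `g y - y ∈ 𝔓` for `y ∈ 𝓞 L`; so `g • 𝔓` and `𝔓` lie over the same
prime of `𝓞 L`, and `Algebra.IsInvariant.exists_smul_of_under_eq_of_profinite` gives `τ₁ ∈ G'` with
`τ₁ • g • 𝔓 = 𝔓`. Let `h = τ₁ * g`; it stabilises `𝔓` and is equal to `g` on `L` (`g` maps `L` to
`L`). (2) `h` acts on `Zb k ⧸ 𝔓` by an automorphism that is trivial on `𝓞 L ⧸ P`, so by
`Ideal.Quotient.stabilizerHom_surjective_of_profinite` there is `τ₂ ∈ G'` that stabilises `𝔓` and
acts on `Zb k ⧸ 𝔓` as `h`. (3) `τ = τ₂⁻¹ * h`. -/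
theorem exists_inertia_lift {k : Type} [Field k] [NumberField k] {𝔓 : Ideal (Zb k)}
    (h𝔓 : 𝔓.IsMaximal) (L : IntermediateField k (AlgebraicClosure k)) [FiniteDimensional k L]
    [Normal k L] (g : GG k)
    (hg : ∀ y z : Zb k, (y : AlgebraicClosure k) ∈ L → (z : AlgebraicClosure k) = g y →
      z - y ∈ 𝔓) :
    ∃ τ : GG k, FrobAt 𝔓 1 τ ∧ ∀ x ∈ L, τ x = g x := by
  have hs : ∀ x : L, ((AlgEquiv.restrictNormal g L x : L) : AlgebraicClosure k) =
      g (x : AlgebraicClosure k) := fun x => AlgEquiv.restrictNormal_commutes g L x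
  obtain ⟨σ, hσ1, hσ2⟩ := Pool.Agent.EXK.exists_inertia_lift h𝔓 L (AlgEquiv.restrictNormal g L)
    (by
      intro y z hz
      rw [map_sub]
      refine hg (algebraMap (𝓞 L) (Zb k) y) (algebraMap (𝓞 L) (Zb k) z) ?_ ?_
      · exact (y : L).2
      · change ((z : L) : AlgebraicClosure k) = g ((y : L) : AlgebraicClosure k)
        rw [hz, hs])
  refine ⟨σ, hσ1, fun x hx => ?_⟩
  have h1 := hσ2 ⟨x, hx⟩
  rw [hs] at h1
  exact h1

end Pool.Agent.EXR
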