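import Mathlib
import Pool.Agent.FRC.YON

open CategoryTheory CategoryTheory.Limits CategoryTheory.Abelian

namespace Pool.Agent.EXR

universe w v u

variable {C : Type u} [Category.{v} C] [Abelian C] [HasExt.{w} C]

/-- Module REA. Every class of degree one is the class of a short exact sequence.

Proof. `Pool.Agent.FRC.exists_extClass_comp` (with `n = 0`) gives
`0 → K → P → X → 0` and `y : Ext K Y 0`, `y = mk₀ φ` (`Ext.mk₀_bijective`). Let `E` be the pushout
of `i : K ⟶ P` and `φ : K ⟶ Y`, with `j = pushout.inr : Y ⟶ E`, and `p' : E ⟶ X` induced by `p` and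
`0`. Then `0 → Y → E → X → 0` is short exact (`j` is mono: pushouts of monomorphisms are
monomorphisms in an abelian category, an instance; `p'` is epi because `p` is; exactness in the
middle from the pushout square: `cokernel j ≅ cokernel i`, or with
`ShortComplex.exact_of_g_is_cokernel`: a map `t : E ⟶ T` with `j ≫ t = 0` factors through `p'`
uniquely because `pushout.inl ≫ t` kills `i`). The morphism of short exact sequences
`(φ, pushout.inl, 𝟙)` and `ShortComplex.ShortExact.extClass_naturality` give the claim. -/
theorem exists_ses {X Y : C} (x : Ext.{w} X Y 1) :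
    ∃ (E : C) (i : Y ⟶ E) (p : E ⟶ X) (w : i ≫ p = 0)
      (hS : (ShortComplex.mk i p w).ShortExact), x = hS.extClass := by
  sorry

/-- Module REA. A split short exact sequence has class zero. (Proof:
`extClass = mk₀ (s ≫ p) · extClass = 0` by `ShortComplex.ShortExact.comp_extClass`.) -/
theorem extClass_eq_zero {X E Y : C} (i : Y ⟶ E) (p : E ⟶ X) (w : i ≫ p = 0)
    (hS : (ShortComplex.mk i p w).ShortExact) (s : X ⟶ E) (hs : s ≫ p = 𝟙 X) :
    (hS.extClass : Ext.{w} X Y 1) = 0 := by
  sorry

end Pool.Agent.EXR
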