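import Mathlib
import Pool.Agent.EXR.REA

open CategoryTheory CategoryTheory.Limits CategoryTheory.Abelian

namespace Pool.Agent.EXR

universe w v u

variable {C : Type u} [Category.{v} C] [Abelian C] [HasExt.{w} C]

/-- Module LIF. Let `T : 0 → W₁ → K → W → 0` and `S : 0 → W → E → V → 0` be short exact, with
`Ext² (V, W₁) = 0`. Then there is `0 → K → X → V → 0` and `f : X ⟶ E` over `V` that is `b` on `K`.

Proof. The class `[S] · [T] ∈ Ext² (V, W₁)` is zero, so by the covariant long exact sequence of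
`T` (`Ext.covariant_sequence_exact₃`) `[S] = x · mk₀ b` with `x ∈ Ext¹ (V, K)`, and by `exists_ses`
`x` is the class of some `0 → K → X → V → 0` (`i`, `q`). Now `x · mk₀ (b ≫ c) = [S] · mk₀ c = 0`
(`extClass_comp`), so by the contravariant sequence (`Ext.contravariant_sequence_exact₁`)
`b ≫ c = i ≫ f₀` for some `f₀ : X ⟶ E`. As
`i ≫ f₀ ≫ d = 0`, `f₀ ≫ d = q ≫ h` with `h : V ⟶ V`. Naturality (`extClass_naturality` for
`(b, f₀, h)`) gives `x · mk₀ b = mk₀ h · [S]`, so `mk₀ (h - 𝟙) · [S] = 0`, and by the covariant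
sequence of `S` (in degree `0`) `h - 𝟙 = m ≫ d`, `m : V ⟶ E`. Put `f = f₀ - q ≫ m`. -/
theorem exists_lift {W₁ K W E V : C} (a : W₁ ⟶ K) (b : K ⟶ W) (c : W ⟶ E) (d : E ⟶ V)
    (wT : a ≫ b = 0) (hT : (ShortComplex.mk a b wT).ShortExact)
    (wS : c ≫ d = 0) (hS : (ShortComplex.mk c d wS).ShortExact)
    (h2 : Subsingleton (Ext.{w} V W₁ 2)) :
    ∃ (X : C) (i : K ⟶ X) (q : X ⟶ V) (f : X ⟶ E) (wX : i ≫ q = 0),
      (ShortComplex.mk i q wX).ShortExact ∧ i ≫ f = b ≫ c ∧ f ≫ d = q := by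
  obtain ⟨x, hx⟩ := Ext.covariant_sequence_exact₃ V hT (hS.extClass : Ext.{w} V W 1)
    (show 1 + 1 = 2 from rfl) (h2.elim _ _)
  obtain ⟨X, i, q, wX, hX, hxX⟩ := exists_ses x
  change x.comp (Ext.mk₀ b) (add_zero 1) = hS.extClass at hx
  have h3 : hX.extClass.comp (Ext.mk₀ (b ≫ c)) (add_zero 1) = 0 := by
    have h4 : (Ext.mk₀ (b ≫ c) : Ext.{w} K E 0) = (Ext.mk₀ b).comp (Ext.mk₀ c) (zero_add 0) :=
      (Ext.mk₀_comp_mk₀ b c).symm
    rw [h4, ← hxX, ← Ext.comp_assoc x (Ext.mk₀ b) (Ext.mk₀ c) (add_zero 1) (zero_add 0)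
      (by omega), hx]
    exact hS.extClass_comp
  obtain ⟨y, hy⟩ := Ext.contravariant_sequence_exact₁ hX E (Ext.mk₀ (b ≫ c))
    (show 1 + 0 = 1 from rfl) h3
  obtain ⟨f₀, rfl⟩ := (Ext.mk₀_bijective _ _).2 y
  change (Ext.mk₀ i).comp (Ext.mk₀ f₀) (zero_add 0) = Ext.mk₀ (b ≫ c) at hy
  rw [Ext.mk₀_comp_mk₀] at hy
  have hif : i ≫ f₀ = b ≫ c := (Ext.mk₀_bijective _ _).1 hy
  have hepi : Epi (ShortComplex.mk i q wX).g := hX.epi_g
  have h5 : (ShortComplex.mk i q wX).f ≫ (f₀ ≫ d) = 0 := by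
    change i ≫ f₀ ≫ d = 0
    rw [← Category.assoc, hif, Category.assoc, wS, comp_zero]
  set h : V ⟶ V := hX.exact.desc (f₀ ≫ d) h5 with hh
  have hqh : q ≫ h = f₀ ≫ d := hX.exact.g_desc (f₀ ≫ d) h5
  let φ : ShortComplex.mk i q wX ⟶ ShortComplex.mk c d wS :=
    { τ₁ := b, τ₂ := f₀, τ₃ := h, comm₁₂ := hif.symm, comm₂₃ := hqh.symm }
  have h6 : hX.extClass.comp (Ext.mk₀ b) (add_zero 1) =
      (Ext.mk₀ h).comp (hS.extClass : Ext.{w} V W 1) (zero_add 1) :=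
    ShortComplex.ShortExact.extClass_naturality hX hS φ
  rw [← hxX, hx] at h6
  have h7 : (Ext.mk₀ (h - 𝟙 V)).comp (hS.extClass : Ext.{w} V W 1) (zero_add 1) = 0 := by
    rw [sub_eq_add_neg, Ext.mk₀_add, Ext.mk₀_neg, Ext.add_comp, Ext.neg_comp, ← h6,
      Ext.mk₀_id_comp]
    exact add_neg_cancel _
  obtain ⟨y, hy2⟩ := Ext.covariant_sequence_exact₃ V hS (Ext.mk₀ (h - 𝟙 V))
    (show 0 + 1 = 1 from rfl) h7
  obtain ⟨m, rfl⟩ := (Ext.mk₀_bijective _ _).2 y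
  change (Ext.mk₀ m).comp (Ext.mk₀ d) (add_zero 0) = Ext.mk₀ (h - 𝟙 V) at hy2
  rw [Ext.mk₀_comp_mk₀] at hy2
  have hmd : m ≫ d = h - 𝟙 V := (Ext.mk₀_bijective _ _).1 hy2
  refine ⟨X, i, q, f₀ - q ≫ m, wX, hX, ?_, ?_⟩
  · rw [Preadditive.comp_sub, hif, ← Category.assoc, wX, zero_comp, sub_zero]
  · rw [Preadditive.sub_comp, Category.assoc, hmd, Preadditive.comp_sub, hqh, Category.comp_id]
    abel

end Pool.Agent.EXR
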