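import Mathlib

namespace Pool.Agent.EXR

variable {B : Type*} [CommRing B] [IsDedekindDomain B]

/-- Module TAMA. An automorphism of `ℓ`-power order that is trivial modulo `P` and trivial on
`P` modulo `P ^ 2` is trivial, if `ℓ ∉ P`. Here `g` is an element of a group acting on the
Dedekind domain `B` by ring automorphisms.

Proof. By induction on `i` the element `g` is trivial modulo `P ^ i` for all `i ≥ 1`. First, for
`j ≥ 1` and `x ∈ P ^ j` one has `g x - x ∈ P ^ (j + 1)` (induction on `j`,
`Submodule.pow_induction_on_left'` or `Submodule.mul_induction_on`: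
`g (x y) - x y = g x (g y - y) + (g x - x) y`). Suppose `g` is trivial modulo `P ^ i`, put
`d x = g x - x ∈ P ^ i`. Then `g (d x) - d x ∈ P ^ (i + 1)`, so by induction on `n`,
`g ^ n x - x - n * d x ∈ P ^ (i + 1)`. For `n = ℓ ^ m` with `g ^ n = 1` this gives
`ℓ ^ m * d x ∈ P ^ (i + 1)`, and `ℓ ^ m ∉ P`, so `d x ∈ P ^ (i + 1)` (`P ^ (i + 1)` is primary:
`Ideal.IsPrime.mul_mem_pow`). Finally `⨅ i, P ^ i = ⊥` (`Ideal.iInf_pow_eq_bot_of_isDomain`),
so `g x = x` for all `x`, and `g = 1` because the action is faithful. -/
theorem tame_trivial {P : Ideal B} (hP : P.IsMaximal) {S : Type*} [Group S]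
    [MulSemiringAction S B] [FaithfulSMul S B] {ℓ : ℕ} (hℓ : (ℓ : B) ∉ P) (g : S) (m : ℕ)
    (hg : g ^ ℓ ^ m = 1) (h1 : ∀ x : B, g • x - x ∈ P) (h2 : ∀ x ∈ P, g • x - x ∈ P ^ 2) :
    g = 1 := by
  have hPp : P.IsPrime := hP.isPrime
  -- Step A
  have hA : ∀ j : ℕ, 1 ≤ j → ∀ x ∈ P ^ j, g • x - x ∈ P ^ (j + 1) := by
    intro j hj
    induction j, hj using Nat.le_induction with
    | base =>
      intro x hx
      rw [pow_one] at hx
      exact h2 x hx
    | succ j hj ih =>
      intro x hx
      rw [pow_succ] at hx
      refine Submodule.mul_induction_on hx ?_ ?_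
      · intro a ha b hb
        have e : g • (a * b) - a * b = (g • a - a) * (g • b) + a * (g • b - b) := by
          rw [smul_mul']; ring
        rw [e]
        have hgb : g • b ∈ P := by
          have : g • b = (g • b - b) + b := by ring
          rw [this]
          exact P.add_mem (h1 b) hb
        refine Ideal.add_mem _ ?_ ?_
        · have := Ideal.mul_mem_mul (ih a ha) hgb
          rwa [← pow_succ] at this
        · have := Ideal.mul_mem_mul ha (h2 b hb)
          rwa [← pow_add] at this
      · intro a b ha hb
        have e : g • (a + b) - (a + b) = (g • a - a) + (g • b - b) := by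
          rw [smul_add]; ring
        rw [e]
        exact Ideal.add_mem _ ha hb
  -- Step B
  have hB : ∀ i : ℕ, 1 ≤ i → ∀ x : B, g • x - x ∈ P ^ i := by
    intro i hi
    induction i, hi using Nat.le_induction with
    | base =>
      intro x
      rw [pow_one]
      exact h1 x
    | succ i hi ih =>
      intro x
      have hd := ih x
      have hgd := hA i hi _ hd
      have key : ∀ n : ℕ, g ^ n • x - x - n * (g • x - x) ∈ P ^ (i + 1) := by
        intro n
        induction n with
        | zero => simp
        | succ n ihn =>
          set d := g • x - x with hd'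
          set r := g ^ n • x - x - n * d with hr
          have hgr : g • r - r ∈ P ^ (i + 1) :=
            Ideal.pow_le_pow_right (Nat.le_succ _) (hA (i + 1) (by omega) r ihn)
          have e : g ^ (n + 1) • x - x - ((n + 1 : ℕ) : B) * d
              = n * (g • d - d) + (g • r - r) + r := by
            have e1 : g ^ (n + 1) • x = g • (x + n * d + r) := by
              have : x + n * d + r = g ^ n • x := by rw [hr]; ring
              rw [this, pow_succ', mul_smul]
            have e2 : g • (n : B) = (n : B) := by
              exact map_natCast (MulSemiringAction.toRingHom S B g) n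
            rw [e1, smul_add, smul_add, smul_mul', e2]
            have e3 : g • x = x + d := by rw [hd']; ring
            rw [e3]
            push_cast
            ring
          rw [e]
          exact Ideal.add_mem _ (Ideal.add_mem _ (Ideal.mul_mem_left _ _ hgd) hgr) ihn
      have h := key (ℓ ^ m)
      rw [hg, one_smul, sub_self, zero_sub, neg_mem_iff] at h
      push_cast at h
      rcases Ideal.IsPrime.mul_mem_pow P h with h' | h'
      · exact absurd (hPp.mem_of_pow_mem _ h') hℓ
      · exact h'
  -- Step C
  apply FaithfulSMul.eq_of_smul_eq_smul (α := B)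
  intro x
  rw [one_smul]
  have hmem : g • x - x ∈ ⨅ i : ℕ, P ^ i := by
    rw [Ideal.mem_iInf]
    intro i
    rcases Nat.eq_zero_or_pos i with rfl | hi
    · simp
    · exact hB i hi x
  rw [Ideal.iInf_pow_eq_bot_of_isDomain P hP.ne_top, Ideal.mem_bot] at hmem
  exact sub_eq_zero.mp hmem

end Pool.Agent.EXR
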