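import Mathlib
import Pool.Agent.EXR.TAMA

namespace Pool.Agent.EXR

variable {B : Type*} [CommRing B] [IsDedekindDomain B]

/-- Module TAMB. A finite `ℓ`-group acting faithfully on the Dedekind domain `B` and trivially
modulo the maximal ideal `P ≠ ⊥` that does not contain `ℓ` is cyclic.

Proof. Take `π ∈ P`, `π ∉ P ^ 2`. By `Ideal.exists_mul_add_mem_pow_succ` every element of `P` is
`π b` modulo `P ^ 2`, and `b` is unique modulo `P` (`Ideal.mem_prime_of_mul_mem_pow`). For `g ∈ S`
write `g π = t g * π` modulo `P ^ 2` (`g π ∈ P`). Then `g (b π) = b t(g) π` modulo `P ^ 2` since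
`g b - b ∈ P`. So `t (g h) = t g * t h` modulo `P`: `t` induces a homomorphism from `S` to the
field `B ⧸ P` (a monoid homomorphism to a domain is enough). It is injective: if `t g ≡ 1` modulo
`P` then `g x - x ∈ P ^ 2` for all `x ∈ P`, so `g = 1` by `tame_trivial`. A finite group with an
injective monoid homomorphism to a domain is cyclic (`isCyclic_of_injective_ringHom`-like:
`isCyclic_of_subgroup_isDomain`). -/
theorem tame_cyclic {P : Ideal B} (hP : P.IsMaximal) (hP0 : P ≠ ⊥) {S : Type*} [Group S]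
    [Finite S] [MulSemiringAction S B] [FaithfulSMul S B] {ℓ : ℕ} (hℓ : (ℓ : B) ∉ P)
    (hS : ∀ g : S, ∃ m : ℕ, g ^ ℓ ^ m = 1) (h1 : ∀ (g : S) (x : B), g • x - x ∈ P) :
    IsCyclic S := by
  sorry

end Pool.Agent.EXR
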