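import Mathlib
import Pool.Agent.FRC.Base

open Polynomial NumberField Topology

namespace Pool.Agent.EXR

open Pool.Agent.H12 Pool.Agent.FRC

variable {k : Type} [Field k] [NumberField k]

/-- Module TOP. A neighbourhood of `1` in `GG k` contains the fixing subgroup of a finite Galois
extension. Proof: `krullTopology_mem_nhds_one_iff` (or `galGroupBasis` as in
`Pool/Agent/H12/Kummer.lean`), then the normal closure of the finite extension
(`IntermediateField.normalClosure`). -/
theorem exists_normal_of_nhds (S : Set (GG k)) (hS : S ∈ 𝓝 (1 : GG k)) :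
    ∃ L : IntermediateField k (AlgebraicClosure k), FiniteDimensional k L ∧ Normal k L ∧
      ∀ g : GG k, (∀ x ∈ L, g x = x) → g ∈ S := by
  sorry

/-- Module TOP. A neighbourhood of `g` contains a coset `g U`, `U` an open subgroup. Proof: from
the previous theorem with `U = L.fixingSubgroup` (`IntermediateField.fixingSubgroup_isOpen`). -/
theorem exists_open_of_nhds (g : GG k) (S : Set (GG k)) (hS : S ∈ 𝓝 g) :
    ∃ U : Subgroup (GG k), IsOpen (U : Set (GG k)) ∧ ∀ h : GG k, g⁻¹ * h ∈ U → h ∈ S := by
  sorry

/-- Module TOP. The inertia group is compact. Proof: `GG k` is compact (`CompactSpace` instance of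
the Galois group, as used in `Pool/Agent/FRC/FRB3.lean`), and the set is closed: it is the
intersection over `y z : Zb k` with `z - y ∉ 𝔓` of the complements of the open sets
`{τ | (z : _) = τ y}` (`stabilizer_isOpen_of_isIntegral`; the evaluation maps are continuous to the
discrete topology). -/
theorem isCompact_inertia (𝔓 : Ideal (Zb k)) : IsCompact {τ : GG k | FrobAt 𝔓 1 τ} := by
  sorry

end Pool.Agent.EXR
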