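import Mathlib
import Pool.Agent.FRC.FRB1
import Pool.Agent.EXR.TAMB
import Pool.Agent.EXR.TOP

open Polynomial NumberField

namespace Pool.Agent.EXR

open Pool.Agent.H12 Pool.Agent.FRC

/-- The image of a finite group in an abelian group of order `ℓ ^ 2` is the image of a Sylow
subgroup. -/
private theorem tai_group {G : Type*} [Group G] [Finite G] {ℓ : ℕ} [Fact ℓ.Prime]
    (hcyc : ∀ S : Subgroup G, IsPGroup ℓ S → IsCyclic S)
    (f : G →* Multiplicative (ZMod ℓ × ZMod ℓ)) : ∃ g₀ : G, ∀ x, ∃ n : ℤ, f x = f g₀ ^ n := by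
  have hℓ : ℓ.Prime := Fact.out
  have : NeZero ℓ := ⟨hℓ.ne_zero⟩
  let S : Sylow ℓ G := default
  have hS := hcyc S S.isPGroup'
  obtain ⟨⟨g₀, hg₀⟩, hgen⟩ := hS.exists_generator
  refine ⟨g₀, ?_⟩
  let F : G →* f.range := f.rangeRestrict
  have hsurj : Function.Surjective F := f.rangeRestrict_surjective
  have h1 : ((S : Subgroup G).map F).index ∣ (S : Subgroup G).index :=
    Subgroup.index_map_dvd _ hsurj
  have h2 : ¬ ℓ ∣ (S : Subgroup G).index := S.not_dvd_index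
  have h3 : ((S : Subgroup G).map F).index ∣ Nat.card f.range := Subgroup.index_dvd_card _
  have h4 : Nat.card f.range ∣ Nat.card (Multiplicative (ZMod ℓ × ZMod ℓ)) :=
    Subgroup.card_subgroup_dvd_card _
  have h5 : Nat.card (Multiplicative (ZMod ℓ × ZMod ℓ)) = ℓ ^ 2 := by
    rw [Nat.card_eq_fintype_card, Fintype.card_multiplicative, Fintype.card_prod, ZMod.card, sq]
  have h6 : ((S : Subgroup G).map F).index ∣ ℓ ^ 2 := by
    rw [← h5]
    exact h3.trans h4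
  have h7 : ((S : Subgroup G).map F).index = 1 := by
    obtain ⟨m, hm, hm'⟩ := (Nat.dvd_prime_pow hℓ).1 h6
    rcases Nat.eq_zero_or_pos m with h0 | h0
    · rw [hm', h0, pow_zero]
    · exfalso
      apply h2
      refine dvd_trans ?_ h1
      rw [hm']
      exact dvd_pow_self ℓ h0.ne'
  have h8 : (S : Subgroup G).map F = ⊤ := Subgroup.index_eq_one.1 h7
  intro x
  have h9 : F x ∈ (S : Subgroup G).map F := by
    rw [h8]
    exact Subgroup.mem_top _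
  obtain ⟨s, hs, hsx⟩ := h9
  obtain ⟨n, hn⟩ := hgen ⟨s, hs⟩
  refine ⟨n, ?_⟩
  have h10 : f s = f x := congrArg Subtype.val hsx
  have h11 : g₀ ^ n = s := congrArg Subtype.val hn
  rw [← h10, ← h11, map_zpow]

private theorem tai_numberField {k : Type} [Field k] [NumberField k]
    (L : IntermediateField k (AlgebraicClosure k)) [FiniteDimensional k L] : NumberField L where
  to_charZero := charZero_of_injective_algebraMap (algebraMap k L).injective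
  to_finiteDimensional := by
    have : CharZero L := charZero_of_injective_algebraMap (algebraMap k L).injective
    exact FiniteDimensional.trans ℚ k L

/-- Module TAI. Tame inertia has rank one modulo `ℓ`: two homomorphisms from the inertia group of
`𝔓` to `ZMod ℓ` that vanish on an open subgroup `U` are linearly dependent, if `ℓ ∉ 𝔓`.

Proof. Let `L` be a finite Galois extension of `k` in the algebraic closure whose fixing subgroup
is contained in `U` (Krull topology: `krullTopology_mem_nhds_one_iff` or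
`InfiniteGalois`/`galGroupBasis`, and `normalClosure`). Let `B = 𝓞 L`, `P = 𝔓 ∩ B` (maximal, `≠ ⊥`,
`ℓ ∉ P`). The inertia elements `I = {τ | FrobAt 𝔓 1 τ}` form a subgroup (`frobAt_one`,
`frobAt_mul`, `frobAt_inv_mul`); let `J` be its image in `Gal(L/k)`. `J` acts faithfully on `B`
and trivially modulo `P`. `θ₁, θ₂` factor through `J`: if `τ, τ' ∈ I` agree on `L` then
`τ⁻¹ τ' ∈ U ∩ I`. Let `S` be a Sylow `ℓ`-subgroup of `J`; it is cyclic by `tame_cyclic`, generated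
by the image of some `τ₀ ∈ I`. For `τ ∈ I` with image `x ∈ J` of order `ℓ ^ a * c`, `ℓ ∤ c`, the
element `x ^ c` has `ℓ`-power order, so it lies in a conjugate of `S`, and `θ_i (x ^ c) = c θ_i x`
is an integral multiple (the same for `i = 1, 2`) of `θ_i τ₀`. As `c` is invertible modulo `ℓ`,
`(θ₁ τ, θ₂ τ)` is a multiple of `(α, β) = (θ₁ τ₀, θ₂ τ₀)`. Take `(a, b) = (β, -α)` if this is not
`0`, and `(1, 0)` otherwise. -/
theorem inertia_rank_mod {k : Type} [Field k] [NumberField k] {ℓ : ℕ} [Fact ℓ.Prime]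
    {𝔓 : Ideal (Zb k)} (h𝔓 : 𝔓.IsMaximal) (hℓ : (ℓ : Zb k) ∉ 𝔓) (θ₁ θ₂ : GG k → ZMod ℓ)
    (h1 : ∀ τ τ', FrobAt 𝔓 1 τ → FrobAt 𝔓 1 τ' → θ₁ (τ * τ') = θ₁ τ + θ₁ τ')
    (h2 : ∀ τ τ', FrobAt 𝔓 1 τ → FrobAt 𝔓 1 τ' → θ₂ (τ * τ') = θ₂ τ + θ₂ τ')
    (U : Subgroup (GG k)) (hU : IsOpen (U : Set (GG k)))
    (h1U : ∀ τ ∈ U, FrobAt 𝔓 1 τ → θ₁ τ = 0) (h2U : ∀ τ ∈ U, FrobAt 𝔓 1 τ → θ₂ τ = 0) :
    ∃ a b : ZMod ℓ, (a ≠ 0 ∨ b ≠ 0) ∧ ∀ τ, FrobAt 𝔓 1 τ → a * θ₁ τ + b * θ₂ τ = 0 := by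
  have hℓp : ℓ.Prime := Fact.out
  have h𝔓p : 𝔓.IsPrime := h𝔓.isPrime
  obtain ⟨L, hLf, hLn, hLU⟩ := exists_normal_of_nhds (U : Set (GG k)) (hU.mem_nhds U.one_mem)
  have hLnf : NumberField L := tai_numberField L
  let I : Subgroup (GG k) :=
    { carrier := {τ | FrobAt 𝔓 1 τ}
      mul_mem' := by
        intro a b ha hb
        have := frobAt_mul ha hb
        rwa [mul_one] at this
      one_mem' := frobAt_one 𝔓
      inv_mem' := by
        intro a ha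
        have := frobAt_inv_mul h𝔓p one_ne_zero ha (frobAt_one 𝔓)
        rwa [mul_one] at this }
  have hI : ∀ τ, τ ∈ I ↔ FrobAt 𝔓 1 τ := fun τ => Iff.rfl
  let r : I →* (L ≃ₐ[k] L) := (AlgEquiv.restrictNormalHom L).comp I.subtype
  have hr : ∀ (τ : I) (x : L), ((r τ x : L) : AlgebraicClosure k) =
      (τ : GG k) (x : AlgebraicClosure k) := fun τ x =>
    AlgEquiv.restrictNormal_commutes (τ : GG k) L x
  have hfinG : Finite (L ≃ₐ[k] L) := inferInstance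
  let J : Subgroup (L ≃ₐ[k] L) := r.range
  have hfinJ : Finite J := inferInstance
  set P : Ideal (𝓞 L) := 𝔓.comap (algebraMap (𝓞 L) (Zb k)) with hP
  have hPm : P.IsMaximal := by
    have hint : Algebra.IsIntegral (𝓞 L) (Zb k) := by
      constructor
      intro x
      have hx : IsIntegral ℤ x := RingOfIntegers.isIntegral x
      exact hx.tower_top
    exact Ideal.isMaximal_comap_of_isIntegral_of_isMaximal 𝔓
  have hP0 : P ≠ ⊥ :=
    Ring.ne_bot_of_isMaximal_of_not_isField hPm (RingOfIntegers.not_isField L)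
  have hPℓ : (ℓ : 𝓞 L) ∉ P := by
    intro h
    apply hℓ
    have h' : algebraMap (𝓞 L) (Zb k) (ℓ : 𝓞 L) ∈ 𝔓 := h
    rwa [map_natCast] at h'
  have hcyc : ∀ S : Subgroup J, IsPGroup ℓ S → IsCyclic S := by
    intro S hS
    have hfaith : FaithfulSMul S (𝓞 L) := by
      constructor
      intro g g' hgg
      apply Subtype.ext
      apply Subtype.ext
      apply AlgEquiv.ext
      intro x
      have h3 : ∀ a : 𝓞 L, (g.1.1 : L ≃ₐ[k] L) (a : L) = (g'.1.1 : L ≃ₐ[k] L) (a : L) := by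
        intro a
        exact congrArg (fun z : 𝓞 L => (z : L)) (hgg a)
      obtain ⟨a, b, hb, rfl⟩ := IsFractionRing.div_surjective (A := 𝓞 L) x
      rw [map_div₀, map_div₀]
      exact congrArg₂ (· / ·) (h3 a) (h3 b)
    refine tame_cyclic hPm hP0 hPℓ (S := S) (fun g => hS g) ?_
    intro g x
    obtain ⟨τ, hτ⟩ := g.1.2
    have h3 := τ.2 (algebraMap (𝓞 L) (Zb k) x) (algebraMap (𝓞 L) (Zb k) (g • x)) ?_
    · change algebraMap (𝓞 L) (Zb k) (g • x - x) ∈ 𝔓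
      rw [map_sub]
      rwa [pow_one] at h3
    · have h4 : ((r τ (x : L) : L) : AlgebraicClosure k) =
          (τ : GG k) ((x : L) : AlgebraicClosure k) := hr τ x
      rw [hτ] at h4
      exact h4
  have hfac : ∀ τ τ' : I, r τ = r τ' → θ₁ τ = θ₁ τ' ∧ θ₂ τ = θ₂ τ' := by
    intro τ τ' h
    have h3 : ((τ⁻¹ * τ' : I) : GG k) ∈ U := by
      apply hLU
      intro x hx
      have h4 : r (τ⁻¹ * τ') = 1 := by
        rw [map_mul, map_inv, h, inv_mul_cancel]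
      have h5 := hr (τ⁻¹ * τ') ⟨x, hx⟩
      rw [h4] at h5
      exact h5.symm
    have h6 : FrobAt 𝔓 1 ((τ⁻¹ * τ' : I) : GG k) := (τ⁻¹ * τ').2
    have h7 : (τ' : GG k) = (τ : GG k) * ((τ⁻¹ * τ' : I) : GG k) := by
      change (τ' : GG k) = (τ : GG k) * ((τ : GG k)⁻¹ * (τ' : GG k))
      group
    rw [h7, h1 _ _ τ.2 h6, h2 _ _ τ.2 h6, h1U _ h3 h6, h2U _ h3 h6]
    exact ⟨(add_zero _).symm, (add_zero _).symm⟩
  have hs : ∀ j : J, ∃ τ : I, r τ = j := fun j => j.2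
  choose s hs using hs
  let f : J →* Multiplicative (ZMod ℓ × ZMod ℓ) := MonoidHom.mk'
    (fun j => Multiplicative.ofAdd (θ₁ (s j), θ₂ (s j))) (by
      intro a b
      have h3 : r (s (a * b)) = r (s a * s b) := by
        rw [hs, map_mul, hs, hs]
        rfl
      have h4 := hfac _ _ h3
      have h5 : θ₁ ((s a * s b : I) : GG k) = θ₁ (s a) + θ₁ (s b) := h1 _ _ (s a).2 (s b).2
      have h6 : θ₂ ((s a * s b : I) : GG k) = θ₂ (s a) + θ₂ (s b) := h2 _ _ (s a).2 (s b).2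
      rw [h4.1, h4.2, h5, h6]
      rfl)
  obtain ⟨g₀, hg₀⟩ := tai_group hcyc f
  have hmain : ∀ τ, FrobAt 𝔓 1 τ → ∃ n : ℤ, θ₁ τ = n * θ₁ (s g₀) ∧ θ₂ τ = n * θ₂ (s g₀) := by
    intro τ hτ
    obtain ⟨n, hn⟩ := hg₀ ⟨r ⟨τ, hτ⟩, ⟨⟨τ, hτ⟩, rfl⟩⟩
    refine ⟨n, ?_⟩
    have h3 := hfac ⟨τ, hτ⟩ (s ⟨r ⟨τ, hτ⟩, ⟨⟨τ, hτ⟩, rfl⟩⟩)
      (hs ⟨r ⟨τ, hτ⟩, ⟨⟨τ, hτ⟩, rfl⟩⟩).symm
    have h4 : (θ₁ (s ⟨r ⟨τ, hτ⟩, ⟨⟨τ, hτ⟩, rfl⟩⟩), θ₂ (s ⟨r ⟨τ, hτ⟩, ⟨⟨τ, hτ⟩, rfl⟩⟩)) =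
        n • (θ₁ (s g₀), θ₂ (s g₀)) := congrArg Multiplicative.toAdd hn
    have h5 := congrArg Prod.fst h4
    have h6 := congrArg Prod.snd h4
    rw [Prod.smul_fst, zsmul_eq_mul] at h5
    rw [Prod.smul_snd, zsmul_eq_mul] at h6
    exact ⟨h3.1.trans h5, h3.2.trans h6⟩
  by_cases h0 : θ₁ (s g₀) = 0 ∧ θ₂ (s g₀) = 0
  · refine ⟨1, 0, Or.inl one_ne_zero, ?_⟩
    intro τ hτ
    obtain ⟨n, hn, hn'⟩ := hmain τ hτ
    rw [hn, hn', h0.1, h0.2]
    ring
  · refine ⟨θ₂ (s g₀), -θ₁ (s g₀), ?_, ?_⟩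
    · by_contra hcon
      push Not at hcon
      exact h0 ⟨neg_eq_zero.1 hcon.2, hcon.1⟩
    · intro τ hτ
      obtain ⟨n, hn, hn'⟩ := hmain τ hτ
      rw [hn, hn']
      ring

end Pool.Agent.EXR
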