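import Mathlib
import Pool.Agent.EXR.TAI

open Polynomial NumberField

namespace Pool.Agent.EXR

open Pool.Agent.H12 Pool.Agent.FRC

private noncomputable def mkZ {ℓ : ℕ} [Fact ℓ.Prime] (x : ℚ_[ℓ]) (h : ‖x‖ ≤ 1) : ℤ_[ℓ] := ⟨x, h⟩

private theorem mkZ_coe {ℓ : ℕ} [Fact ℓ.Prime] (x : ℚ_[ℓ]) (h : ‖x‖ ≤ 1) :
    ((mkZ x h : ℤ_[ℓ]) : ℚ_[ℓ]) = x := rfl

/-- The reduction of an `ℓ`-adic integer modulo `ℓ` (and `0` for the other numbers). -/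
private noncomputable def redQ {ℓ : ℕ} [Fact ℓ.Prime] (x : ℚ_[ℓ]) : ZMod ℓ :=
  open scoped Classical in
  if h : ‖x‖ ≤ 1 then PadicInt.toZMod (mkZ x h) else 0

private theorem redQ_of {ℓ : ℕ} [Fact ℓ.Prime] {x : ℚ_[ℓ]} (h : ‖x‖ ≤ 1) :
    redQ x = PadicInt.toZMod (mkZ x h) := by
  unfold redQ
  rw [dif_pos h]

private theorem redQ_add {ℓ : ℕ} [Fact ℓ.Prime] {x y : ℚ_[ℓ]} (hx : ‖x‖ ≤ 1) (hy : ‖y‖ ≤ 1) :
    redQ (x + y) = redQ x + redQ y := by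
  have h : ‖x + y‖ ≤ 1 := (Padic.nonarchimedean x y).trans (max_le hx hy)
  have h1 : mkZ (x + y) h = mkZ x hx + mkZ y hy := rfl
  rw [redQ_of hx, redQ_of hy, redQ_of h, h1, map_add]

private theorem redQ_small {ℓ : ℕ} [Fact ℓ.Prime] {x : ℚ_[ℓ]} (hx : ‖x‖ < 1) : redQ x = 0 := by
  rw [redQ_of hx.le]
  have h1 : mkZ x hx.le ∈ RingHom.ker (PadicInt.toZMod : ℤ_[ℓ] →+* ZMod ℓ) := by
    rw [PadicInt.ker_toZMod, IsLocalRing.mem_maximalIdeal, PadicInt.mem_nonunits]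
    exact hx
  exact h1

private theorem redQ_one {ℓ : ℕ} [Fact ℓ.Prime] : redQ (1 : ℚ_[ℓ]) = 1 := by
  have h : ‖(1 : ℚ_[ℓ])‖ ≤ 1 := by rw [norm_one]
  have h1 : mkZ (1 : ℚ_[ℓ]) h = 1 := rfl
  rw [redQ_of h, h1, map_one]

/-- The case where both functions are normalised. -/
private theorem rnk_aux {k : Type} [Field k] [NumberField k] {ℓ : ℕ} [Fact ℓ.Prime]
    {𝔓 : Ideal (Zb k)} (h𝔓 : 𝔓.IsMaximal) (hℓ : (ℓ : Zb k) ∉ 𝔓) (a b : GG k → ℚ_[ℓ])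
    (ha : Continuous a) (hb : Continuous b)
    (ha' : ∀ τ τ', FrobAt 𝔓 1 τ → FrobAt 𝔓 1 τ' → a (τ * τ') = a τ + a τ')
    (hb' : ∀ τ τ', FrobAt 𝔓 1 τ → FrobAt 𝔓 1 τ' → b (τ * τ') = b τ + b τ')
    (hna : ∀ τ, FrobAt 𝔓 1 τ → ‖a τ‖ ≤ 1) (hnb : ∀ τ, FrobAt 𝔓 1 τ → ‖b τ‖ ≤ 1)
    (τ₁ τ₂ : GG k) (h₁ : FrobAt 𝔓 1 τ₁) (h₂ : FrobAt 𝔓 1 τ₂) (ha1 : a τ₁ = 1) (hb1 : b τ₁ = 0)
    (hb2 : b τ₂ = 1) : False := by
  have hone : FrobAt 𝔓 1 (1 : GG k) := frobAt_one 𝔓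
  have ha0 : a 1 = 0 := by
    have := ha' 1 1 hone hone
    rw [mul_one] at this
    exact left_eq_add.1 this
  have hb0 : b 1 = 0 := by
    have := hb' 1 1 hone hone
    rw [mul_one] at this
    exact left_eq_add.1 this
  have hS : {τ : GG k | ‖a τ‖ < 1} ∩ {τ : GG k | ‖b τ‖ < 1} ∈ nhds (1 : GG k) := by
    apply IsOpen.mem_nhds
    · exact (isOpen_lt ha.norm continuous_const).inter (isOpen_lt hb.norm continuous_const)
    · refine ⟨?_, ?_⟩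
      · change ‖a 1‖ < 1
        rw [ha0, norm_zero]
        exact one_pos
      · change ‖b 1‖ < 1
        rw [hb0, norm_zero]
        exact one_pos
  obtain ⟨U, hU, hUS⟩ := exists_open_of_nhds (1 : GG k) _ hS
  have hUS' : ∀ h ∈ U, ‖a h‖ < 1 ∧ ‖b h‖ < 1 := by
    intro h hh
    exact hUS h (by rwa [inv_one, one_mul])
  obtain ⟨x, y, hxy, hrel⟩ := inertia_rank_mod h𝔓 hℓ (fun τ => redQ (a τ)) (fun τ => redQ (b τ))
    (fun τ τ' h h' => by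
      rw [ha' τ τ' h h']
      exact redQ_add (hna τ h) (hna τ' h'))
    (fun τ τ' h h' => by
      rw [hb' τ τ' h h']
      exact redQ_add (hnb τ h) (hnb τ' h'))
    U hU (fun τ h _ => redQ_small (hUS' τ h).1) (fun τ h _ => redQ_small (hUS' τ h).2)
  have e1 := hrel τ₁ h₁
  have e2 := hrel τ₂ h₂
  have hz : redQ (0 : ℚ_[ℓ]) = 0 := redQ_small (by rw [norm_zero]; exact one_pos)
  rw [ha1, hb1, redQ_one, hz, mul_one, mul_zero, add_zero] at e1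
  rw [hb2, redQ_one, e1, zero_mul, zero_add, mul_one] at e2
  rcases hxy with h | h
  · exact h e1
  · exact h e2

/-- Module RNK. Tame inertia has rank one: two continuous functions on `GG k` with values in `ℚ_ℓ`
that are additive on the inertia group `I` of `𝔓 ∌ ℓ` are proportional on `I`.

Proof. `I = {τ | FrobAt 𝔓 1 τ}` is closed in the compact group `GG k` (for `y z : Zb k` the set
`{τ | (z : _) = τ y}` is clopen), so compact, and it is a subgroup. If `a = 0` on `I` there is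
nothing to prove. Otherwise choose `τ₁ ∈ I` with `‖a τ₁‖` maximal (`IsCompact.exists_isMaxOn`), and
put `b' τ = b τ - (a τ / a τ₁) * b τ₁`, again continuous and additive on `I`. If `b' = 0` on `I`
the claim follows by a computation. Otherwise choose `τ₂ ∈ I` with `‖b' τ₂‖` maximal. For `τ ∈ I`
the numbers `α τ = a τ / a τ₁`, `β τ = b' τ / b' τ₂` are in `ℤ_ℓ` (norm `≤ 1`), `α τ₁ = 1`,
`β τ₁ = 0`, `β τ₂ = 1`. Let `θ₁, θ₂` be their reductions modulo `ℓ` (`PadicInt.toZMod`; put `0`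
outside `I`). They are additive on `I` and vanish on `I ∩ U` for an open subgroup `U`: `a` and
`b'` are continuous at `1` with `a 1 = b' 1 = 0`, so the norms of `α`, `β` are `< 1` on a
neighbourhood of `1`, which contains an open subgroup (`krullTopology`, or
`TopologicalGroup`/`ProfiniteGrp` facts such as `exist_openNormalSubgroup_sub_open_nhds_of_one`).
By `inertia_rank_mod`, `x θ₁ + y θ₂ = 0` on `I` with `(x, y) ≠ 0`; at `τ₁` this gives `x = 0`, at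
`τ₂` it gives `y = 0`. -/
theorem inertia_proportional {k : Type} [Field k] [NumberField k] {ℓ : ℕ} [Fact ℓ.Prime]
    {𝔓 : Ideal (Zb k)} (h𝔓 : 𝔓.IsMaximal) (hℓ : (ℓ : Zb k) ∉ 𝔓) (a b : GG k → ℚ_[ℓ])
    (ha : Continuous a) (hb : Continuous b)
    (ha' : ∀ τ τ', FrobAt 𝔓 1 τ → FrobAt 𝔓 1 τ' → a (τ * τ') = a τ + a τ')
    (hb' : ∀ τ τ', FrobAt 𝔓 1 τ → FrobAt 𝔓 1 τ' → b (τ * τ') = b τ + b τ')
    (τ τ' : GG k) (hτ : FrobAt 𝔓 1 τ) (hτ' : FrobAt 𝔓 1 τ') : a τ * b τ' = a τ' * b τ := by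
  have hcomp := isCompact_inertia 𝔓 (k := k)
  have hne : {τ : GG k | FrobAt 𝔓 1 τ}.Nonempty := ⟨1, frobAt_one 𝔓⟩
  obtain ⟨τ₁, hτ₁, hmax₁⟩ := hcomp.exists_isMaxOn hne ha.norm.continuousOn
  by_cases h0 : a τ₁ = 0
  · have hz : ∀ τ, FrobAt 𝔓 1 τ → a τ = 0 := by
      intro σ hσ
      have h1 : ‖a σ‖ ≤ ‖a τ₁‖ := hmax₁ hσ
      rw [h0, norm_zero] at h1
      exact norm_le_zero_iff.1 h1
    rw [hz τ hτ, hz τ' hτ', zero_mul, zero_mul]
  · let b₁ : GG k → ℚ_[ℓ] := fun σ => b σ - (a σ / a τ₁) * b τ₁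
    have hb₁ : Continuous b₁ := hb.sub ((ha.div_const _).mul continuous_const)
    have hb₁' : ∀ τ τ', FrobAt 𝔓 1 τ → FrobAt 𝔓 1 τ' → b₁ (τ * τ') = b₁ τ + b₁ τ' := by
      intro σ σ' hσ hσ'
      change b (σ * σ') - (a (σ * σ') / a τ₁) * b τ₁ = (b σ - (a σ / a τ₁) * b τ₁) +
        (b σ' - (a σ' / a τ₁) * b τ₁)
      rw [ha' σ σ' hσ hσ', hb' σ σ' hσ hσ']
      ring
    obtain ⟨τ₂, hτ₂, hmax₂⟩ := hcomp.exists_isMaxOn hne hb₁.norm.continuousOn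
    by_cases h0' : b₁ τ₂ = 0
    · have hz : ∀ τ, FrobAt 𝔓 1 τ → b τ = (a τ / a τ₁) * b τ₁ := by
        intro σ hσ
        have h1 : ‖b₁ σ‖ ≤ ‖b₁ τ₂‖ := hmax₂ hσ
        rw [h0', norm_zero] at h1
        have h2 : b σ - (a σ / a τ₁) * b τ₁ = 0 := norm_le_zero_iff.1 h1
        exact sub_eq_zero.1 h2
      rw [hz τ hτ, hz τ' hτ']
      ring
    · exfalso
      refine rnk_aux h𝔓 hℓ (fun σ => a σ / a τ₁) (fun σ => b₁ σ / b₁ τ₂) (ha.div_const _)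
        (hb₁.div_const _) ?_ ?_ ?_ ?_ τ₁ τ₂ hτ₁ hτ₂ (div_self h0) ?_ (div_self h0')
      · intro σ σ' hσ hσ'
        rw [ha' σ σ' hσ hσ']
        ring
      · intro σ σ' hσ hσ'
        rw [hb₁' σ σ' hσ hσ']
        ring
      · intro σ hσ
        rw [norm_div]
        exact div_le_one_of_le₀ (hmax₁ hσ) (norm_nonneg _)
      · intro σ hσ
        rw [norm_div]
        exact div_le_one_of_le₀ (hmax₂ hσ) (norm_nonneg _)
      · change (b τ₁ - (a τ₁ / a τ₁) * b τ₁) / b₁ τ₂ = 0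
        rw [div_self h0, one_mul, sub_self, zero_div]

end Pool.Agent.EXR
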