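import Mathlib
import Pool.Agent.EXR.Defs
import Pool.Agent.EXR.RNK
import Pool.Agent.FRC.FRB1

open CategoryTheory Polynomial NumberField

namespace Pool.Agent.EXR

open Pool.Agent.H12 Pool.Agent.FRC

variable {k : Type} [Field k] [NumberField k] {ℓ : ℕ} [Fact ℓ.Prime]

private theorem loc_rho_mul (X : RepG k ℓ) (g h : GG k) (x : X) :
    X.ρ (g * h) x = X.ρ g (X.ρ h x) := by
  rw [map_mul]; rfl

private theorem loc_exists (σ : GG k) (y : Zb k) :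
    ∃ w : Zb k, (w : AlgebraicClosure k) = σ (y : AlgebraicClosure k) := by
  have h : IsIntegral ℤ (y : AlgebraicClosure k) := RingOfIntegers.isIntegral_coe y
  have h2 : IsIntegral ℤ (σ (y : AlgebraicClosure k)) :=
    h.map (σ.toAlgHom.toRingHom.toIntAlgHom)
  exact ⟨⟨σ (y : AlgebraicClosure k), h2⟩, rfl⟩

private theorem loc_coe_cont {T : Type} [TopologicalSpace T] {f : T → ℤ_[ℓ]} (hf : Continuous f) :
    Continuous fun x => ((f x : ℤ_[ℓ]) : ℚ_[ℓ]) :=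
  Continuous.comp (g := fun z : ℤ_[ℓ] => (z : ℚ_[ℓ])) continuous_subtype_val hf

private theorem loc_conj {𝔓 : Ideal (Zb k)} (h𝔓 : 𝔓.IsPrime) {q : ℕ} (hq : q ≠ 0) {σ τ : GG k}
    (hσ : FrobAt 𝔓 q σ) (hτ : FrobAt 𝔓 1 τ) : FrobAt 𝔓 1 (σ * τ * σ⁻¹) := by
  intro y z h
  rw [pow_one]
  obtain ⟨y', hy'⟩ := loc_exists σ⁻¹ y
  obtain ⟨z', hz'⟩ := loc_exists τ y'
  have h1 : z' - y' ∈ 𝔓 := by
    have := hτ y' z' hz'
    rwa [pow_one] at this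
  have hz : (z : AlgebraicClosure k) = σ (z' : AlgebraicClosure k) := by
    rw [h, hz', hy']
    rfl
  have hy : (y : AlgebraicClosure k) = σ (y' : AlgebraicClosure k) := by
    rw [hy']
    exact (σ.apply_symm_apply _).symm
  refine (frobAt_stab h𝔓 hq hσ (z' - y') (z - y) ?_).2 h1
  have e1 : ((z - y : Zb k) : AlgebraicClosure k) = (z : AlgebraicClosure k) - y := rfl
  have e2 : ((z' - y' : Zb k) : AlgebraicClosure k) = (z' : AlgebraicClosure k) - y' := rfl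
  rw [e1, e2, map_sub, hz, hy]

/-- Module LOC1. A linear map on `X` that measures inertia. Here `K = kmRep W κ`, `i : K → X` and
`f : X → E` are equivariant, `i` is injective, the kernel of `f` is `i (W × 0)`, and `E` and `W` are
unramified at `𝔓`; `κ τ₀ ≠ 0` for an inertia element `τ₀`. Then for every `σ` that acts as a power
of Frobenius modulo `𝔓` there is a linear `r : X → W` with `r (i (x, y)) = y` and
`r (σ x) = σ (r x)`.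

Proof. For `τ` in inertia and `x ∈ X`, `τ x - x ∈ ker f` (since `τ` is trivial on `E`), so there is
a unique `t τ x ∈ W` with `τ x - x = i (t τ x, 0)` (choose a linear left inverse of
`w ↦ i (w, 0)`, so that `t τ` is a linear map for all `τ ∈ GG k`). As `χ τ = 1` (`cyc_of_frobAt`)
and `τ` is trivial on `W`, `t τ (i (x, y)) = κ τ • y`; `t (τ τ') = t τ + t τ'` (inertia is trivial
on `i (W × 0)`). For each `x` and each linear form `φ` on `W` the functions `τ ↦ φ (t τ x)` and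
`τ ↦ κ τ` are continuous (`IsCont X`) and additive on inertia, so by `inertia_proportional`
`κ τ₀ • t τ x = κ τ • t τ₀ x`. Let `r = (κ τ₀)⁻¹ • t τ₀`; then `t τ = κ τ • r` and
`r (i (x, y)) = y`. If `σ y ≡ y ^ q` modulo `𝔓`, `q ≠ 0`, then `τ₁ = σ τ₀ σ⁻¹` is in inertia
(`frobAt_mul`, `frobAt_stab`, `frobAt_inv_mul` in `Pool/Agent/FRC/FRB1.lean`), and
`τ₁ x - x = σ (τ₀ σ⁻¹ x - σ⁻¹ x) = i (χ σ • σ (t τ₀ (σ⁻¹ x)), 0)`, so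
`t τ₁ x = χ σ • σ (t τ₀ (σ⁻¹ x))`. By the cocycle relation `κ τ₁ = χ σ * κ τ₀`. Hence
`χ σ κ τ₀ • r x = χ σ κ τ₀ • σ (r (σ⁻¹ x))`, that is `r x = σ (r (σ⁻¹ x))`. -/
theorem exists_retraction {W X E : RepG k ℓ} {κ : GG k → ℤ_[ℓ]}
    (hκ : ∀ g h, κ (g * h) = κ g + (cyc k ℓ g : ℤ_[ℓ]) * κ h) (hκc : Continuous κ)
    (hX : IsCont X) (i : (W × W) →ₗ[ℚ_[ℓ]] X)
    (hi : ∀ g z, i (kmOp W κ g z) = X.ρ g (i z)) (hinj : Function.Injective i)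
    (f : X →ₗ[ℚ_[ℓ]] E) (hf : ∀ g x, f (X.ρ g x) = E.ρ g (f x))
    (hker : ∀ x, f x = 0 ↔ ∃ w : W, x = i (w, 0))
    {𝔓 : Ideal (Zb k)} (h𝔓 : 𝔓.IsMaximal) (hℓ : (ℓ : Zb k) ∉ 𝔓)
    (hE : ∀ τ, FrobAt 𝔓 1 τ → ∀ v : E, E.ρ τ v = v)
    (hW : ∀ τ, FrobAt 𝔓 1 τ → ∀ v : W, W.ρ τ v = v)
    (τ₀ : GG k) (hτ₀ : FrobAt 𝔓 1 τ₀) (hκ₀ : κ τ₀ ≠ 0)
    (q : ℕ) (hq : q ≠ 0) (σ : GG k) (hσ : FrobAt 𝔓 q σ) :
    ∃ r : X →ₗ[ℚ_[ℓ]] W, (∀ z : W × W, r (i z) = z.2) ∧ ∀ x, r (X.ρ σ x) = W.ρ σ (r x) := by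
  classical
  -- notation
  have hχ1 : ∀ τ, FrobAt 𝔓 1 τ → (cyc k ℓ τ : ℤ_[ℓ]) = 1 := by
    intro τ hτ
    rw [cyc_of_frobAt h𝔓 hℓ hτ, Nat.cast_one]
  have hχ : ∀ τ, FrobAt 𝔓 1 τ → chi k ℓ τ = 1 := by
    intro τ hτ
    unfold chi
    rw [hχ1 τ hτ]
    simp
  -- the linear left inverse
  obtain ⟨L, hL⟩ := LinearMap.exists_leftInverse_of_injective (i ∘ₗ LinearMap.inl ℚ_[ℓ] W W) (by
    rw [LinearMap.ker_eq_bot]
    intro a b hab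
    have h := hinj (show i (a, 0) = i (b, 0) from hab)
    exact congrArg Prod.fst h)
  have hL' : ∀ w : W, L (i (w, 0)) = w := fun w => by
    have := LinearMap.congr_fun hL w
    exact this
  have hex : ∀ τ, FrobAt 𝔓 1 τ → ∀ x : X, X.ρ τ x - x = i (L (X.ρ τ x - x), 0) := by
    intro τ hτ x
    obtain ⟨w, hw⟩ := (hker (X.ρ τ x - x)).1 (by rw [map_sub, hf, hE τ hτ, sub_self])
    rw [hw, hL']
  -- `t`
  obtain ⟨t, ht⟩ : ∃ t : GG k → (X →ₗ[ℚ_[ℓ]] W), ∀ τ x, t τ x = L (X.ρ τ x - x) :=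
    ⟨fun τ => L ∘ₗ (X.ρ τ - LinearMap.id), fun τ x => rfl⟩
  have hit : ∀ τ, FrobAt 𝔓 1 τ → ∀ x : X, X.ρ τ x - x = i (t τ x, 0) := by
    intro τ hτ x
    rw [ht]
    exact hex τ hτ x
  have hi0 : ∀ (g : GG k) (w : W), X.ρ g (i (w, 0)) = i (chi k ℓ g • W.ρ g w, 0) := by
    intro g w
    rw [← hi, kmOp_apply]
    simp only [map_zero, smul_zero, add_zero]
  have htri : ∀ τ, FrobAt 𝔓 1 τ → ∀ w : W, X.ρ τ (i (w, 0)) = i (w, 0) := by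
    intro τ hτ w
    rw [hi0, hχ τ hτ, one_smul, hW τ hτ]
  have hti : ∀ τ, FrobAt 𝔓 1 τ → ∀ z : W × W, t τ (i z) = ((κ τ : ℤ_[ℓ]) : ℚ_[ℓ]) • z.2 := by
    intro τ hτ z
    have h1 : X.ρ τ (i z) - i z = i (((κ τ : ℤ_[ℓ]) : ℚ_[ℓ]) • z.2, 0) := by
      rw [← hi, kmOp_apply, hχ τ hτ, one_smul, hW τ hτ, hW τ hτ, ← map_sub]
      congr 1
      refine Prod.ext ?_ ?_
      · show z.1 + ((κ τ : ℤ_[ℓ]) : ℚ_[ℓ]) • z.2 - z.1 = ((κ τ : ℤ_[ℓ]) : ℚ_[ℓ]) • z.2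
        abel
      · show z.2 - z.2 = 0
        exact sub_self _
    rw [ht, h1, hL']
  have htadd : ∀ τ τ', FrobAt 𝔓 1 τ → FrobAt 𝔓 1 τ' → ∀ x, t (τ * τ') x = t τ x + t τ' x := by
    intro τ τ' hτ hτ' x
    have h1 : X.ρ (τ * τ') x - x = (X.ρ τ x - x) + i (t τ' x, 0) := by
      rw [loc_rho_mul]
      have h2 : X.ρ τ' x = x + i (t τ' x, 0) := by rw [← hit τ' hτ' x]; abel
      rw [h2, map_add, htri τ hτ]
      abel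
    rw [ht (τ * τ'), h1, map_add, hL', ← ht]
  have hκadd : ∀ τ τ', FrobAt 𝔓 1 τ → FrobAt 𝔓 1 τ' →
      ((κ (τ * τ') : ℤ_[ℓ]) : ℚ_[ℓ]) = ((κ τ : ℤ_[ℓ]) : ℚ_[ℓ]) + ((κ τ' : ℤ_[ℓ]) : ℚ_[ℓ]) := by
    intro τ τ' hτ _
    rw [hκ, hχ1 τ hτ, one_mul, PadicInt.coe_add]
  have hprop : ∀ τ, FrobAt 𝔓 1 τ → ∀ x : X,
      ((κ τ₀ : ℤ_[ℓ]) : ℚ_[ℓ]) • t τ x = ((κ τ : ℤ_[ℓ]) : ℚ_[ℓ]) • t τ₀ x := by
    intro τ hτ x
    rw [← sub_eq_zero, ← Module.forall_dual_apply_eq_zero_iff ℚ_[ℓ]]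
    intro φ
    have h := inertia_proportional h𝔓 hℓ (fun g => φ (t g x)) (fun g => ((κ g : ℤ_[ℓ]) : ℚ_[ℓ]))
      (by
        have h1 : (fun g => φ (t g x)) = fun g => (φ ∘ₗ L) (X.ρ g x) - (φ ∘ₗ L) x := by
          funext g
          rw [ht, ← map_sub]
          rfl
        rw [h1]
        exact (hX x (φ ∘ₗ L)).sub continuous_const)
      (loc_coe_cont hκc)
      (fun a b ha hb => by
        show φ (t (a * b) x) = φ (t a x) + φ (t b x)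
        rw [htadd a b ha hb, map_add])
      (fun a b ha hb => hκadd a b ha hb) τ τ₀ hτ hτ₀
    have h' : φ (t τ x) * ((κ τ₀ : ℤ_[ℓ]) : ℚ_[ℓ]) = φ (t τ₀ x) * ((κ τ : ℤ_[ℓ]) : ℚ_[ℓ]) := h
    rw [map_sub, map_smul, map_smul, smul_eq_mul, smul_eq_mul]
    linear_combination h'
  have hκ₀' : ((κ τ₀ : ℤ_[ℓ]) : ℚ_[ℓ]) ≠ 0 := by
    intro h
    exact hκ₀ (PadicInt.coe_eq_zero.1 h)
  -- the conjugate
  have hτ₁ : FrobAt 𝔓 1 (σ * τ₀ * σ⁻¹) := loc_conj h𝔓.isPrime hq hσ hτ₀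
  have hκ1 : κ 1 = 0 := by
    have := hκ 1 1
    simpa using this
  have hκτ₁ : κ (σ * τ₀ * σ⁻¹) = (cyc k ℓ σ : ℤ_[ℓ]) * κ τ₀ := by
    have h1 := hκ (σ * τ₀) σ⁻¹
    have h2 := hκ σ τ₀
    have h3 := hκ σ σ⁻¹
    rw [mul_inv_cancel, hκ1] at h3
    have h4 : (cyc k ℓ (σ * τ₀) : ℤ_[ℓ]) = (cyc k ℓ σ : ℤ_[ℓ]) := by
      rw [map_mul, Units.val_mul, hχ1 τ₀ hτ₀, mul_one]
    rw [h1, h2, h4]
    linear_combination -h3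
  have hχσ : chi k ℓ σ ≠ 0 := by
    intro h
    have h1 := chi_mul (k := k) (ℓ := ℓ) σ σ⁻¹
    rw [mul_inv_cancel, chi_one, h, zero_mul] at h1
    exact one_ne_zero h1
  have hκτ₁' : ((κ (σ * τ₀ * σ⁻¹) : ℤ_[ℓ]) : ℚ_[ℓ]) = chi k ℓ σ * ((κ τ₀ : ℤ_[ℓ]) : ℚ_[ℓ]) := by
    rw [hκτ₁, PadicInt.coe_mul]
    rfl
  have htσ : ∀ x : X, t (σ * τ₀ * σ⁻¹) (X.ρ σ x) = chi k ℓ σ • W.ρ σ (t τ₀ x) := by
    intro x
    have h1 : X.ρ (σ * τ₀ * σ⁻¹) (X.ρ σ x) - X.ρ σ x = X.ρ σ (X.ρ τ₀ x - x) := by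
      rw [← loc_rho_mul, inv_mul_cancel_right, loc_rho_mul, map_sub]
    rw [ht, h1, hit τ₀ hτ₀, hi0, hL']
  have hfin : ∀ x : X, t τ₀ (X.ρ σ x) = W.ρ σ (t τ₀ x) := by
    intro x
    have h := hprop _ hτ₁ (X.ρ σ x)
    rw [htσ, hκτ₁', smul_smul, mul_comm] at h
    have h2 : (chi k ℓ σ * ((κ τ₀ : ℤ_[ℓ]) : ℚ_[ℓ])) ≠ 0 := mul_ne_zero hχσ hκ₀'
    exact (smul_right_injective _ h2 h).symm
  refine ⟨(((κ τ₀ : ℤ_[ℓ]) : ℚ_[ℓ]))⁻¹ • t τ₀, ?_, ?_⟩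
  · intro z
    rw [LinearMap.smul_apply, hti τ₀ hτ₀, smul_smul, inv_mul_cancel₀ hκ₀', one_smul]
  · intro x
    rw [LinearMap.smul_apply, LinearMap.smul_apply, hfin, map_smul]

end Pool.Agent.EXR
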