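import Mathlib

namespace Pool.Agent.EXR

/-- Module SEC. Pure linear algebra: from a retraction defined on a cover `X` of `E` to a section
of `d` that commutes with one operator (`sW, sX, sE, sV` are the actions of `σ`).

Proof. `r` descends along `f` to `r' : E → W` (`r' (f x) = r x`), with `r' (c w) = w` and
`r' (sE e) = sW (r' e)`. Take a linear section `s₀` of `d` and put `s v = s₀ v - c (r' (s₀ v))`, so
`d (s v) = v` and `r' (s v) = 0`. The difference `e = s (sV v) - sE (s v)` is killed by `d`, so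
`e = c w`, and by `r'`, so `w = 0`. -/
theorem exists_section {K : Type*} [Field K] {W X E V : Type*} [AddCommGroup W] [Module K W]
    [AddCommGroup X] [Module K X] [AddCommGroup E] [Module K E] [AddCommGroup V] [Module K V]
    (sW : W →ₗ[K] W) (sX : X →ₗ[K] X) (sE : E →ₗ[K] E) (sV : V →ₗ[K] V)
    (c : W →ₗ[K] E) (hc : ∀ w, c (sW w) = sE (c w))
    (d : E →ₗ[K] V) (hd : ∀ e, d (sE e) = sV (d e)) (hds : Function.Surjective d)
    (hdk : ∀ e, d e = 0 → ∃ w, c w = e) (hdc : ∀ w, d (c w) = 0)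
    (f : X →ₗ[K] E) (hf : ∀ x, f (sX x) = sE (f x)) (hfs : Function.Surjective f)
    (r : X →ₗ[K] W) (hr : ∀ x, r (sX x) = sW (r x)) (hr0 : ∀ x, f x = 0 → r x = 0)
    (hrc : ∀ w, ∃ x, f x = c w ∧ r x = w) :
    ∃ s : V →ₗ[K] E, (∀ v, d (s v) = v) ∧ ∀ v, s (sV v) = sE (s v) := by
  obtain ⟨g, hg⟩ := f.exists_rightInverse_of_surjective (LinearMap.range_eq_top.2 hfs)
  have hg' : ∀ e, f (g e) = e := fun e => LinearMap.congr_fun hg e
  obtain ⟨s₀, hs₀⟩ := d.exists_rightInverse_of_surjective (LinearMap.range_eq_top.2 hds)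
  have hs₀' : ∀ v, d (s₀ v) = v := fun v => LinearMap.congr_fun hs₀ v
  -- the retraction
  set r' : E →ₗ[K] W := r ∘ₗ g with hr'
  have hrf : ∀ x, r' (f x) = r x := by
    intro x
    have h := hr0 (g (f x) - x) (by rw [map_sub, hg', sub_self])
    rw [map_sub, sub_eq_zero] at h
    exact h
  have hrc' : ∀ w, r' (c w) = w := by
    intro w
    obtain ⟨x, h1, h2⟩ := hrc w
    rw [← h1, hrf, h2]
  have hrs : ∀ e, r' (sE e) = sW (r' e) := by
    intro e
    obtain ⟨x, rfl⟩ := hfs e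
    rw [← hf, hrf, hrf, hr]
  refine ⟨s₀ - c ∘ₗ r' ∘ₗ s₀, fun v => ?_, fun v => ?_⟩
  · rw [LinearMap.sub_apply, map_sub, LinearMap.comp_apply, LinearMap.comp_apply, hdc, hs₀',
      sub_zero]
  · set s : V →ₗ[K] E := s₀ - c ∘ₗ r' ∘ₗ s₀ with hs
    have h1 : ∀ v, d (s v) = v := fun v => by
      rw [hs, LinearMap.sub_apply, map_sub, LinearMap.comp_apply, LinearMap.comp_apply, hdc, hs₀',
        sub_zero]
    have h2 : ∀ v, r' (s v) = 0 := fun v => by
      have h : s v = s₀ v - c (r' (s₀ v)) := rfl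
      rw [h, map_sub, hrc', sub_self]
    obtain ⟨w, hw⟩ := hdk (s (sV v) - sE (s v)) (by rw [map_sub, h1, hd, h1, sub_self])
    have h3 : r' (s (sV v) - sE (s v)) = 0 := by
      rw [map_sub, h2, hrs, h2, map_zero, sub_zero]
    rw [← hw, hrc'] at h3
    rw [h3, map_zero] at hw
    exact (sub_eq_zero.1 hw.symm)

end Pool.Agent.EXR
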