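import Mathlib
import Pool.Agent.EXR.Defs

open CategoryTheory Polynomial NumberField

namespace Pool.Agent.EXR

open Pool.Agent.H12 Pool.Agent.FRC

/-- Module URM. The cocycle is unramified outside `ℓ`, `p` and `Q`. Proof: copy `KumData.unram` in
`Pool/Agent/FRC/K0.lean` (here `u n ^ ℓ ^ n = p ^ e * Q ^ b n` is not in `𝔓`, for `n ≥ 1`; for
`n = 0` the ring `ZMod (ℓ ^ 0)` is trivial). -/
theorem KumP.unram {k : Type} [Field k] [NumberField k] {ℓ : ℕ} [Fact ℓ.Prime] {p : ℕ}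
    (D : KumP k ℓ p) {𝔓 : Ideal (Zb k)} (h𝔓 : 𝔓.IsMaximal) (hℓ : (ℓ : Zb k) ∉ 𝔓)
    (hp : (p : Zb k) ∉ 𝔓) (hQ : (D.Q : Zb k) ∉ 𝔓) {σ : GG k} (hσ : FrobAt 𝔓 1 σ) :
    D.κ σ = 0 := by
  have hpr : ℓ.Prime := Fact.out
  apply PadicInt.ext_of_toZModPow.mp
  intro n
  have : NeZero (ℓ ^ n) := ⟨pow_ne_zero _ hpr.ne_zero⟩
  rcases Nat.eq_zero_or_pos n with hn | hn
  · subst hn
    have hs : Subsingleton (ZMod (ℓ ^ 0)) := by
      rw [pow_zero]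
      infer_instance
    exact Subsingleton.elim _ _
  set a := (PadicInt.toZModPow n (D.κ σ)).val with ha
  have hζ := D.prim n
  have hint1 : ∀ x : AlgebraicClosure k, x ^ ℓ ^ n = 1 → IsIntegral ℤ x := by
    intro x hx
    exact ⟨X ^ ℓ ^ n - 1, monic_X_pow_sub_C 1 (NeZero.ne _), by simp [hx]⟩
  have hζa : (D.ζ n ^ a) ^ ℓ ^ n = 1 := by
    rw [← pow_mul, mul_comm, pow_mul, hζ.pow_eq_one, one_pow]
  have hintu : IsIntegral ℤ (D.u n) := by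
    refine IsIntegral.of_pow (pow_pos hpr.pos n) ?_
    rw [D.u_pow n hn]
    have h0 := isIntegral_algebraMap (R := ℤ) (A := AlgebraicClosure k)
      (x := ((p ^ D.e * D.Q ^ D.b n : ℕ) : ℤ))
    rwa [eq_intCast, Int.cast_natCast] at h0
  let z : Zb k := ⟨D.ζ n ^ a, hint1 _ hζa⟩
  let y : Zb k := ⟨D.u n, hintu⟩
  have hz : z ^ ℓ ^ n = 1 := Subtype.ext hζa
  have hy : y ^ ℓ ^ n = (p : Zb k) ^ D.e * (D.Q : Zb k) ^ D.b n := by
    apply Subtype.ext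
    have := D.u_pow n hn
    push_cast at this ⊢
    exact this
  have h1 : z * y - y ^ 1 ∈ 𝔓 := hσ y (z * y) (D.spec n σ).symm
  have h2 : (z - 1) * y ∈ 𝔓 := by
    have : z * y - y ^ 1 = (z - 1) * y := by ring
    rwa [this] at h1
  have hy𝔓 : y ∉ 𝔓 := by
    intro hmem
    have h3 : (p : Zb k) ^ D.e * (D.Q : Zb k) ^ D.b n ∈ 𝔓 := by
      rw [← hy]
      exact Ideal.pow_mem_of_mem _ hmem _ (pow_pos hpr.pos n)
    rcases h𝔓.isPrime.mem_or_mem h3 with h4 | h4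
    · exact hp (h𝔓.isPrime.mem_of_pow_mem _ h4)
    · exact hQ (h𝔓.isPrime.mem_of_pow_mem _ h4)
  have h3 : z - 1 ∈ 𝔓 := (h𝔓.isPrime.mem_or_mem h2).resolve_right hy𝔓
  have h4 : z = 1 := root_eq_of_mem h𝔓 hℓ n z 1 hz (one_pow _) h3
  have h5 : D.ζ n ^ a = D.ζ n ^ 0 := by
    rw [pow_zero]; exact congrArg Subtype.val h4
  have h6 : a = 0 := hζ.pow_inj (ZMod.val_lt _) (pow_pos hpr.pos n) h5
  rw [map_zero]
  exact (ZMod.val_eq_zero _).mp h6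

end Pool.Agent.EXR
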